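import Mathlib
import Pool.Agent.H402V4.Good
import Pool.Agent.H402V4.Extra

/-! The parameters, with `0 ≤ ν`. The proofs are those of `Pool.Agent.H402V4` (helper402). -/

set_option autoImplicit false

open Set MeasureTheory Filter Topology Finset
open scoped RealInnerProductSpace ContDiff

namespace Pool.Agent.H280R3.E5

open Pool.Agent.H402V4

/-- the shell system attached to a solution -/
theorem shell_of_sol0 {φ ρ ψ : V → V} {x₁ : V} {ν T lam : ℝ} {u0 : V → V} {u : ℝ → V → V}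
    (P : Prof φ ρ ψ x₁) (S : Scl (MM lam) (EE lam)) (hν : 0 ≤ ν) (hT0 : 0 ≤ T) (hT1 : T ≤ 1)
    (h : GSol ν (Fam φ ψ ρ (MM lam) (EE lam)) u0 T u)
    {E B Dd Pl Cc R : ℝ} (hE : ∀ n, En φ ψ ρ (MM lam) (EE lam) (u 0) n ≤ E)
    (hE0 : 0 ≤ E) (hPl : 0 < Pl)
    (hPl' : Pl ≤ ip (PP ψ ρ (MM lam) (EE lam)) (PP ψ ρ (MM lam) (EE lam)))
    (hB : ∀ x, ‖fderiv ℝ (PP ψ ρ (MM lam) (EE lam)) x‖ ≤ B)
    (hDd : |dir (PP ψ ρ (MM lam) (EE lam)) (PP ψ ρ (MM lam) (EE lam))| ≤ Dd)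
    (hCc0 : 0 ≤ Cc) (hCc : E ≤ Cc ^ 2 * Pl) (hR1 : 1 ≤ R) (hR : E ≤ ip φ φ * R ^ 2)
    (hc0 : cf ψ ρ (MM lam) (EE lam) (u 0) = 1)
    (hT : (B * E + ν * (Cc * Dd)) / Pl * T ≤ 1 / 2) :
    Shell (gg (-hf φ φ / ip φ φ) lam) (muu (ν * dir φ φ / ip φ φ) lam)
      (ss (-hf ρ ρ / (4 * ip φ φ)) lam) (ss (9 * -hf ρ ρ / (4 * ip φ φ)) lam)
      (kk (9 * -hf ρ ρ / (4 * -hf φ φ)) lam) R T
      (fun n t => af φ (MM lam) (u t) n)
      (fun n t => tt φ ψ ρ (MM lam) (EE lam) (u t) (n + 1) / (-hf φ φ))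
      (fun n t => MM lam n ^ 5 * (cf ψ ρ (MM lam) (EE lam) (u t) ^ 2 * EE lam n * (-hf ρ ρ))
        / ip φ φ)
      (fun n t => (-hf ρ ρ) / (-hf φ φ) * (cf ψ ρ (MM lam) (EE lam) (u t) ^ 2 * EE lam n)) := by
  have hF := φ_pos P
  have hq : 0 < -hf φ φ := by linarith [P.q_pos]
  have hβ : 0 < -hf ρ ρ := by linarith [P.β_pos]
  have hA : 0 ≤ dir φ φ := by
    unfold dir
    exact integral_nonneg fun x => sum_nonneg fun i _ => real_inner_self_nonneg
  have hM5 : ∀ n, MM lam n ^ 5 = Real.exp (5 / 2 * LL lam n) := by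
    intro n; rw [MM_pow]; congr 1; push_cast; ring
  have hM4 : ∀ n, MM lam n ^ 4 = Real.exp (2 * LL lam n) := by
    intro n; rw [MM_pow]; congr 1; push_cast; ring
  obtain ⟨C, cm, hC0, hC, hcm⟩ := cf_bdd P S h
  have hPpos := PP_ip_pos P S
  have hbd := fun t (ht : t ∈ Icc 0 T) => energy_bounds P S hν hT0 hT1 h hE ht
  have hB0 : 0 ≤ B := (norm_nonneg _).trans (hB 0)
  -- control of the pump
  have hcabs : ∀ t ∈ Icc 0 T, |cf ψ ρ (MM lam) (EE lam) (u t)| ≤ Cc := by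
    intro t ht
    have h1 := (hbd t ht).1
    refine abs_le_of_sq_le_sq' ?_ hCc0 |> fun h => abs_le.mpr h
    have h2 : cf ψ ρ (MM lam) (EE lam) (u t) ^ 2 * Pl ≤ Cc ^ 2 * Pl := by
      refine le_trans ?_ (h1.trans hCc)
      exact mul_le_mul_of_nonneg_left hPl' (sq_nonneg _)
    exact le_of_mul_le_mul_right h2 hPl
  have hcd : ∀ t ∈ Icc 0 T, |(tri (u t) (PP ψ ρ (MM lam) (EE lam)) (u t)
      - ν * dir (u t) (PP ψ ρ (MM lam) (EE lam)))
        / ip (PP ψ ρ (MM lam) (EE lam)) (PP ψ ρ (MM lam) (EE lam))|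
        ≤ (B * E + ν * (Cc * Dd)) / Pl := by
    intro t ht
    have h1 := tri_pump_le (PP_TF P S) (h.mem t ht).1 hB
    obtain ⟨Cv, -, hCv⟩ := (h.mem t ht).1.bound
    have h2 : |dir (u t) (PP ψ ρ (MM lam) (EE lam))| ≤ Cc * Dd := by
      rw [dir_pump P S (h.mem t ht) (fun x => (hCv x).2) hB, abs_mul]
      exact mul_le_mul (hcabs t ht) hDd (abs_nonneg _) hCc0
    have h3 : B * ip (u t) (u t) ≤ B * E := mul_le_mul_of_nonneg_left (hbd t ht).2.2 hB0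
    have h4 : |tri (u t) (PP ψ ρ (MM lam) (EE lam)) (u t)
      - ν * dir (u t) (PP ψ ρ (MM lam) (EE lam))| ≤ B * E + ν * (Cc * Dd) := by
      refine (abs_sub _ _).trans (add_le_add (h1.trans h3) ?_)
      rw [abs_mul, abs_of_nonneg hν]
      exact mul_le_mul_of_nonneg_left h2 hν
    rw [abs_div, abs_of_pos hPpos]
    exact div_le_div₀ (le_trans (abs_nonneg _) h4) h4 hPl hPl'
  have hcf : ∀ t ∈ Icc 0 T, |cf ψ ρ (MM lam) (EE lam) (u t) - 1| ≤ 1 / 2 := by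
    intro t ht
    have h0 : (0 : ℝ) ∈ Icc 0 T := ⟨le_rfl, hT0⟩
    have k1 := le_of_deriv_le (s := 0) (t := t) (fun t ht => c_deriv h ht)
      (fun t _ => hasDerivWithinAt_linear ((B * E + ν * (Cc * Dd)) / Pl) 0 (Icc 0 T) t)
      (fun t ht => (abs_le.mp (hcd t ht)).2) h0 ht ht.1
    have k2 := le_of_deriv_le (s := 0) (t := t) 
      (fun t _ => hasDerivWithinAt_linear (-((B * E + ν * (Cc * Dd)) / Pl)) 0 (Icc 0 T) t)
      (fun t ht => c_deriv h ht)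
      (fun t ht => (abs_le.mp (hcd t ht)).1) h0 ht ht.1
    have k3 : (B * E + ν * (Cc * Dd)) / Pl * t ≤ 1 / 2 := by
      refine le_trans ?_ hT
      refine mul_le_mul_of_nonneg_left ht.2 ?_
      exact (abs_nonneg _).trans (hcd t ht)
    rw [hc0] at k1 k2
    rw [abs_le]
    constructor <;> linarith
  have hclo : ∀ t ∈ Icc 0 T, 1 / 4 ≤ cf ψ ρ (MM lam) (EE lam) (u t) ^ 2 := by
    intro t ht
    have := abs_le.mp (hcf t ht)
    nlinarith
  have hchi : ∀ t ∈ Icc 0 T, cf ψ ρ (MM lam) (EE lam) (u t) ^ 2 ≤ 9 / 4 := by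
    intro t ht
    have := abs_le.mp (hcf t ht)
    nlinarith
  have hW : ∀ n t, W (gg (-hf φ φ / ip φ φ) lam) (fun n t => af φ (MM lam) (u t) n) n t
      = (-hf φ φ / ip φ φ) * Wf φ (MM lam) (u t) n := by
    intro n t
    unfold W Wf gg
    rw [mul_sum]
    refine sum_congr rfl fun m _ => ?_
    rw [hM5]; ring
  constructor
  · exact hT0
  · exact hT1
  · exact hR1
  · exact fun n => gg_pos (by positivity) lam n
  · intro n; unfold muu; positivity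
  · intro n t ht
    refine HasDerivWithinAt.congr_deriv (a_deriv h n ht) ?_
    rw [hW, flux_eq P S (h.mem t ht), dir_eq P S (h.mem t ht)]
    unfold gg muu
    rw [← hM5, ← hM4]
    generalize -hf φ φ = q at hq ⊢
    generalize -hf ρ ρ = β
    field_simp
    ring
  · intro n t ht
    rw [tt_rec P S (h.mem t ht) (n + 1)]
    generalize -hf φ φ = q at hq ⊢
    generalize -hf ρ ρ = β
    field_simp
  · intro n t ht
    exact div_nonneg (tt_nonneg P S (h.mem t ht) _) hq.le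
  · intro η hη
    have h1 : Tendsto (fun n => ‖HH‖ * (C + C * ‖HH‖) ^ 2 * vr (rad (MM lam) n)) atTop (𝓝 0) := by
      simpa using (vr_rad_tendsto S).const_mul (‖HH‖ * (C + C * ‖HH‖) ^ 2)
    have h2 : 0 < η * (-hf φ φ) := by positivity
    obtain ⟨n0, hn0⟩ := eventually_atTop.mp (h1.eventually (gt_mem_nhds h2))
    refine ⟨n0, fun n hn t ht => ?_⟩
    rw [div_le_iff₀ hq]
    exact (le_abs_self _).trans ((tt_vel P S (h.mem t ht) (hC t ht) (n + 1)).trans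
      (hn0 (n + 1) (by omega)).le)
  · intro η hη
    set K1 := ‖HH‖ * (C + C * ‖HH‖) ^ 2 with hK1
    have hK10 : 0 ≤ K1 := by positivity
    have h1 : Tendsto (fun n => K1 * C / ip φ φ * vq (MM lam) n) atTop (𝓝 0) := by
      simpa using (vq_tendsto S).const_mul (K1 * C / ip φ φ)
    obtain ⟨n0, hn0⟩ := eventually_atTop.mp (h1.eventually (gt_mem_nhds hη))
    refine ⟨n0, fun n hn t ht => ?_⟩
    have hr := S.rad_pos (n + 1)
    have h2 := (le_abs_self _).trans (tt_vel P S (h.mem t ht) (hC t ht) (n + 1))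
    have h3 := W_vel P S (h.mem t ht) (hC t ht) (n + 1)
    have h4 := tt_nonneg P S (h.mem t ht) (n + 1)
    rw [hW, abs_mul, abs_of_pos (by positivity)]
    refine le_trans ?_ (hn0 (n + 1) (by omega)).le
    have h5 : |Wf φ (MM lam) (u t) (n + 1)| ≤ C / rad (MM lam) (n + 1) := by
      rw [le_div_iff₀ hr]; exact h3
    generalize -hf φ φ = q at hq ⊢
    calc tt φ ψ ρ (MM lam) (EE lam) (u t) (n + 1) / q
          * (q / ip φ φ * |Wf φ (MM lam) (u t) (n + 1)|)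
        = tt φ ψ ρ (MM lam) (EE lam) (u t) (n + 1) * |Wf φ (MM lam) (u t) (n + 1)| / ip φ φ := by
          field_simp
      _ ≤ (K1 * vr (rad (MM lam) (n + 1))) * (C / rad (MM lam) (n + 1)) / ip φ φ := by
          refine div_le_div_of_nonneg_right ?_ hF.le
          exact mul_le_mul h2 h5 (abs_nonneg _) (by have := vr_nonneg (rad (MM lam) (n + 1)); positivity)
      _ = _ := by unfold vq; field_simp
  · intro n t ht
    have h1 := (hbd t ht).2.1 n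
    have h2 : af φ (MM lam) (u t) n ^ 2 ≤ R ^ 2 := le_of_mul_le_mul_left (h1.trans hR) hF
    exact abs_le.mpr (abs_le_of_sq_le_sq' h2 (by linarith))
  · intro n
    have := EE_pos lam n
    unfold ss; positivity
  · intro n t ht
    have h1 := EE_pos lam n
    have h2 := hclo t ht
    unfold ss
    rw [← hM5]
    have h3 : (0:ℝ) < MM lam n ^ 5 := by have := MM_pos lam n; positivity
    have h4 : 1 / 4 * (MM lam n ^ 5 * EE lam n * -hf ρ ρ / ip φ φ)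
      ≤ cf ψ ρ (MM lam) (EE lam) (u t) ^ 2 * (MM lam n ^ 5 * EE lam n * -hf ρ ρ / ip φ φ) :=
      mul_le_mul_of_nonneg_right h2 (by positivity)
    calc -hf ρ ρ / (4 * ip φ φ) * MM lam n ^ 5 * EE lam n
        = 1 / 4 * (MM lam n ^ 5 * EE lam n * -hf ρ ρ / ip φ φ) := by field_simp
      _ ≤ _ := h4
      _ = _ := by ring
  · intro n t ht
    have h1 := EE_pos lam n
    have h2 := hchi t ht
    unfold ss
    rw [← hM5]
    have h3 : (0:ℝ) < MM lam n ^ 5 := by have := MM_pos lam n; positivity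
    have h4 : cf ψ ρ (MM lam) (EE lam) (u t) ^ 2 * (MM lam n ^ 5 * EE lam n * -hf ρ ρ / ip φ φ)
      ≤ 9 / 4 * (MM lam n ^ 5 * EE lam n * -hf ρ ρ / ip φ φ) :=
      mul_le_mul_of_nonneg_right h2 (by positivity)
    calc MM lam n ^ 5 * (cf ψ ρ (MM lam) (EE lam) (u t) ^ 2 * EE lam n * -hf ρ ρ) / ip φ φ
        = cf ψ ρ (MM lam) (EE lam) (u t) ^ 2 * (MM lam n ^ 5 * EE lam n * -hf ρ ρ / ip φ φ) := by
          ring
      _ ≤ _ := h4
      _ = _ := by field_simp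
  · intro n t ht
    have h1 := EE_pos lam n
    positivity
  · intro n t ht
    have h1 := EE_pos lam n
    have h2 := hchi t ht
    unfold kk
    calc -hf ρ ρ / -hf φ φ * (cf ψ ρ (MM lam) (EE lam) (u t) ^ 2 * EE lam n)
        ≤ -hf ρ ρ / -hf φ φ * (9 / 4 * EE lam n) :=
          mul_le_mul_of_nonneg_left (mul_le_mul_of_nonneg_right h2 h1.le) (by positivity)
      _ = _ := by field_simp


structure GoodE (φ ρ ψ : V → V) (x₁ : V) (ν T lam E : ℝ) : Prop where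
  P : Prof φ ρ ψ x₁
  S : Scl (MM lam) (EE lam)
  one : 1 ≤ lam
  ν_nn : 0 ≤ ν
  T_pos : 0 < T
  T_le : T ≤ 1
  en : ∀ T' u, 0 ≤ T' → T' ≤ T →
    GSol ν (Fam φ ψ ρ (MM lam) (EE lam)) (u00 φ ψ ρ lam (dd φ lam)) T' u → ∀ t ∈ Icc 0 T',
    cf ψ ρ (MM lam) (EE lam) (u t) ^ 2 * ip (PP ψ ρ (MM lam) (EE lam)) (PP ψ ρ (MM lam) (EE lam)) ≤ E
    ∧ (∀ m, ip φ φ * af φ (MM lam) (u t) m ^ 2 ≤ E) ∧ ip (u t) (u t) ≤ E
  no : ∀ u, ¬ GSol ν (Fam φ ψ ρ (MM lam) (EE lam)) (u00 φ ψ ρ lam (dd φ lam)) T u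
  sh : ∃ R C : ℝ, 1 ≤ R ∧ 0 ≤ C ∧ (∀ n K : ℕ, ∑ l ∈ Finset.Ico (n + 1) (K + 1),
      (2 * R * ss (9 * -hf ρ ρ / (4 * ip φ φ)) lam l
        + 4 * kk (9 * -hf ρ ρ / (4 * -hf φ φ)) lam l * w (gg (-hf φ φ / ip φ φ) lam) R l)
          ≤ etaa C lam n) ∧
    (∀ n K : ℕ, ∑ l ∈ Finset.Ico (n + 1) (K + 1), kk (9 * -hf ρ ρ / (4 * -hf φ φ)) lam l
          ≤ etaa C lam n) ∧
    ∀ T' u, 0 ≤ T' → T' ≤ T →
      GSol ν (Fam φ ψ ρ (MM lam) (EE lam)) (u00 φ ψ ρ lam (dd φ lam)) T' u →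
      Shell (gg (-hf φ φ / ip φ φ) lam) (muu (ν * dir φ φ / ip φ φ) lam)
      (ss (-hf ρ ρ / (4 * ip φ φ)) lam) (ss (9 * -hf ρ ρ / (4 * ip φ φ)) lam)
      (kk (9 * -hf ρ ρ / (4 * -hf φ φ)) lam) R T'
      (fun n t => af φ (MM lam) (u t) n)
      (fun n t => tt φ ψ ρ (MM lam) (EE lam) (u t) (n + 1) / (-hf φ φ))
      (fun n t => MM lam n ^ 5 * (cf ψ ρ (MM lam) (EE lam) (u t) ^ 2 * EE lam n * (-hf ρ ρ))
        / ip φ φ)
      (fun n t => (-hf ρ ρ) / (-hf φ φ) * (cf ψ ρ (MM lam) (EE lam) (u t) ^ 2 * EE lam n))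

/-- good parameters exist -/
theorem exists_good0 {φ ρ ψ : V → V} {x₁ : V} (P : Prof φ ρ ψ x₁) {ν : ℝ} (hν : 0 ≤ ν) :
    ∃ T lam E : ℝ, GoodE φ ρ ψ x₁ ν T lam E ∧
      ip (u00 φ ψ ρ lam (dd φ lam) - ψ) (u00 φ ψ ρ lam (dd φ lam) - ψ)
        ≤ 3 * (2 * ip φ φ + vr 1) := by
  obtain ⟨B0, B, hB0, hB, hev⟩ := ev_unif P
  have hF := φ_pos P
  have hq : 0 < -hf φ φ := by linarith [P.q_pos]
  have hβ : 0 < -hf ρ ρ := by linarith [P.β_pos]
  have hA : 0 ≤ dir φ φ := by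
    unfold dir
    exact integral_nonneg fun x => sum_nonneg fun i _ => real_inner_self_nonneg
  set F := ip φ φ with hFdef
  set Ph := B0 ^ 2 * vr (sr ψ) with hPh
  set Dd := 3 * (B * B) * vr (sr ψ) with hDd
  set E := Ph + 2 * F with hE
  set Pl := ip ψ ψ with hPl
  have hPlpos : 0 < Pl := P.ψ_pos
  have hv3 := vr_nonneg (sr ψ)
  have hPh0 : 0 ≤ Ph := by positivity
  have hDd0 : 0 ≤ Dd := by positivity
  have hE0 : 0 ≤ E := by positivity
  set Cc := Real.sqrt (E / Pl) with hCc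
  set R := Real.sqrt (E / F) + 1 with hR
  set C₁ := (B * E + ν * (Cc * Dd)) / Pl with hC₁
  have hC₁0 : 0 ≤ C₁ := by positivity
  set T := min 1 (1 / (2 * (C₁ + 1))) with hT
  have hTpos : 0 < T := lt_min one_pos (by positivity)
  have hT1 : T ≤ 1 := min_le_left _ _
  have hCT : C₁ * T ≤ 1 / 2 := by
    have h1 : T ≤ 1 / (2 * (C₁ + 1)) := min_le_right _ _
    have h2 : C₁ * T ≤ C₁ * (1 / (2 * (C₁ + 1))) := mul_le_mul_of_nonneg_left h1 hC₁0
    refine h2.trans ?_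
    rw [mul_one_div, div_le_div_iff₀ (by positivity) (by norm_num)]
    linarith
  have hR1 : 1 ≤ R := by
    have := Real.sqrt_nonneg (E / F)
    linarith
  have hRE : E ≤ F * R ^ 2 := by
    have h1 : Real.sqrt (E / F) ^ 2 = E / F := Real.sq_sqrt (by positivity)
    have h2 : E / F ≤ R ^ 2 := by
      rw [← h1]
      exact pow_le_pow_left₀ (Real.sqrt_nonneg _) (by linarith) 2
    rw [div_le_iff₀ hF] at h2
    linarith
  have hCcE : E ≤ Cc ^ 2 * Pl := by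
    rw [hCc, Real.sq_sqrt (by positivity), div_mul_cancel₀ _ hPlpos.ne']
  have hpar := ev_par (γ := -hf φ φ / F) (m := ν * dir φ φ / F) (s₁ := -hf ρ ρ / (4 * F))
    (s₂ := 9 * -hf ρ ρ / (4 * F)) (k := 9 * -hf ρ ρ / (4 * -hf φ φ)) (R := R) (T := T)
    (by positivity) (by positivity) (by positivity) (by positivity) (by positivity) hR1 hTpos
  have hc8 := ev_c8 (γ := -hf φ φ / F) (by positivity)
  obtain ⟨lam, S, ⟨hb0, hb⟩, Pr, hlam1, hhalf, hc8, htail⟩ := (ev_scl.and (hev.and (hpar.and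
    ((eventually_ge_atTop 1).and (ev_halfE.and (hc8.and (ev_tail P))))))).exists
  set d := dd φ lam with hd
  have hPT := PP_TF P S
  have hPh' : ip (PP ψ ρ (MM lam) (EE lam)) (PP ψ ρ (MM lam) (EE lam)) ≤ Ph := by
    refine (le_abs_self _).trans ?_
    unfold ip
    refine int_le_vr (fun x _ => ?_) (fun x hx => by rw [PP_zero P S x hx]; simp)
    rw [real_inner_self_eq_norm_sq, abs_of_nonneg (sq_nonneg _)]
    exact pow_le_pow_left₀ (norm_nonneg _) (hb0 x) 2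
  have hDd' : |dir (PP ψ ρ (MM lam) (EE lam)) (PP ψ ρ (MM lam) (EE lam))| ≤ Dd :=
    dir_diff_le hb hb (fun x hx => fderiv_zero_of (PP_zero P S) x hx)
  have hd0 : 0 ≤ d := by
    have := gg_pos (γ := -hf φ φ / ip φ φ) (by positivity) lam 0
    rw [hd]; unfold dd δ; positivity
  have hd1 : d ≤ 1 := by
    have h1 := Pr.c4' 0
    have h2 := Pr.r_le 0
    have h3 : d = δ (gg (-hf φ φ / F) lam) 0 := rfl
    linarith
  have hEn : ∀ n, En φ ψ ρ (MM lam) (EE lam) (u00 φ ψ ρ lam d) n ≤ E :=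
    fun n => u00_En P S hd0 hd1 hPh' n
  have hshell : ∀ T' u, 0 ≤ T' → T' ≤ T →
      GSol ν (Fam φ ψ ρ (MM lam) (EE lam)) (u00 φ ψ ρ lam (dd φ lam)) T' u → _ :=
    fun T' u hT'0 hT' hu => shell_of_sol0 P S hν hT'0 (hT'.trans hT1) hu
    (fun n => by rw [hu.init]; exact hEn n) hE0
    hPlpos (PP_pos P S) hb hDd' (Real.sqrt_nonneg _) hCcE hR1 hRE
    (by rw [hu.init]; exact u00_cf P S d) ((mul_le_mul_of_nonneg_left hT' hC₁0).trans hCT)
  refine ⟨T, lam, E, ⟨P, S, hlam1, hν, hTpos, hT1, fun T' u hT'0 hT' hu t ht => ?_,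
    fun u hu => ?_, R, _, hR1, ?_, Pr.hη, Pr.hη', hshell⟩, u00_diff P S hd0 hd1 htail⟩
  · exact energy_bounds P S hν hT'0 (hT'.trans hT1) hu (fun n => by rw [hu.init]; exact hEn n) ht
  swap
  · unfold Ceta
    positivity
  have hsh := hshell T u hTpos.le le_rfl hu
  have haf : ∀ n, af φ (MM lam) (u 0) n = if n = 0 then 1 else if n = 1 then dd φ lam else 0 := by
    intro n
    rw [hu.init, u00_af P S]
  refine cascade hsh Pr ?_ ?_ ?_ ?_
  · show rr 0 ≤ af φ (MM lam) (u 0) 0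
    rw [haf]
    simp [rr]
  · show af φ (MM lam) (u 0) 1 = _
    rw [haf, if_neg one_ne_zero, if_pos rfl]
    rfl
  · intro n hn
    show af φ (MM lam) (u 0) n = 0
    rw [haf, if_neg (by omega), if_neg (by omega)]
  · obtain ⟨C, hC⟩ := hu.bdd
    have hC0 : 0 ≤ C := (norm_nonneg _).trans (hC 0 ⟨le_rfl, hTpos.le⟩ 0)
    have hWb : ∀ t ∈ Icc 0 T, ∀ n,
        |W (gg (-hf φ φ / ip φ φ) lam) (fun n t => af φ (MM lam) (u t) n) n t|
          ≤ (-hf φ φ / ip φ φ * C) * Real.exp (LL lam n) := by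
      intro t ht n
      have h1 := W_vel P S (hu.mem t ht) (hC t ht) n
      rw [rad_exp, ← div_eq_mul_inv, div_le_iff₀ (Real.exp_pos _)] at h1
      rw [W_eq, abs_mul, abs_of_pos (by positivity), mul_assoc]
      exact mul_le_mul_of_nonneg_left h1 (by positivity)
    obtain ⟨n, hn⟩ := hc8 (2 * (-hf φ φ / ip φ φ * C))
    refine ⟨n, fun t ht => ?_⟩
    have h1 := hWb t ht n
    have h2 := hWb t ht (n + 1)
    have h3 : Real.exp (LL lam n) ≤ Real.exp (LL lam (n + 1)) :=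
      Real.exp_le_exp.mpr (LL_mono (by linarith) (Nat.le_succ n))
    have h4 := mul_le_mul_of_nonneg_left h3 (by positivity : 0 ≤ -hf φ φ / ip φ φ * C)
    linarith

end Pool.Agent.H280R3.E5
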