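import Mathlib
import Pool.Agent.H402V4.Dyn

/-! Solutions with bounded velocity and bounded gradient. -/

set_option autoImplicit false

open Set MeasureTheory Filter Topology Finset
open scoped RealInnerProductSpace ContDiff

namespace Pool.Agent.H280R3.E5

open Pool.Agent.H402V4

/-- Solutions of the Galerkin system on `[0, T]` with bounded gradient. -/
structure ESol (ν : ℝ) (Φ : ℕ → V → V) (u0 : V → V) (T : ℝ) (u : ℝ → V → V) : Prop where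
  init : u 0 = u0
  mem : ∀ t ∈ Icc 0 T, InX Φ (u t)
  bdd : ∃ C, ∀ t ∈ Icc 0 T, ∀ x, ‖u t x‖ ≤ C ∧ ‖fderiv ℝ (u t) x‖ ≤ C
  eq : ∀ k, ∀ t ∈ Icc 0 T, HasDerivWithinAt (fun s => ip (u s) (Φ k))
    (tri (u t) (Φ k) (u t) - ν * dir (u t) (Φ k)) (Icc 0 T) t

theorem ESol.toG {ν : ℝ} {Φ : ℕ → V → V} {u0 : V → V} {T : ℝ} {u : ℝ → V → V}
    (h : ESol ν Φ u0 T u) : GSol ν Φ u0 T u where
  init := h.init
  mem := h.mem
  bdd := by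
    obtain ⟨C, hC⟩ := h.bdd
    exact ⟨C, fun t ht x => (hC t ht x).1⟩
  eq := h.eq

theorem cf_bddE {φ ρ ψ : V → V} {x₁ : V} {M ε : ℕ → ℝ} {ν T : ℝ} {u0 : V → V} {u : ℝ → V → V}
    (P : Prof φ ρ ψ x₁) (S : Scl M ε) (h : ESol ν (Fam φ ψ ρ M ε) u0 T u) :
    ∃ C cm, 0 ≤ C ∧ (∀ t ∈ Icc 0 T, ∀ x, ‖u t x‖ ≤ C ∧ ‖fderiv ℝ (u t) x‖ ≤ C) ∧
      ∀ t ∈ Icc 0 T, |cf ψ ρ M ε (u t)| ≤ cm := by
  obtain ⟨C1, cm, hC0, _, hcm⟩ := cf_bdd P S h.toG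
  obtain ⟨C, hC⟩ := h.bdd
  exact ⟨max C 0, cm, le_max_right _ _, fun t ht x => ⟨(hC t ht x).1.trans (le_max_left _ _),
    (hC t ht x).2.trans (le_max_left _ _)⟩, hcm⟩

theorem le_of_vr' {M ε : ℕ → ℝ} (S : Scl M ε) {a b K : ℝ} {n₀ : ℕ}
    (h : ∀ n ≥ n₀, a ≤ b + K * vr (rad M n)) : a ≤ b := by
  have h1 : Tendsto (fun n => b + K * vr (rad M n)) atTop (𝓝 (b + K * 0)) :=
    tendsto_const_nhds.add ((vr_rad_tendsto S).const_mul K)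
  have h2 := ge_of_tendsto h1 (eventually_atTop.mpr ⟨n₀, h⟩)
  linarith

end Pool.Agent.H280R3.E5
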