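import Mathlib
import Pool.Agent.H280R3.E5.ESol

/-! Restriction, congruence and concatenation of solutions. -/

set_option autoImplicit false

open Set MeasureTheory Filter Topology Finset
open scoped RealInnerProductSpace ContDiff

namespace Pool.Agent.H280R3.E5

open Pool.Agent.H402V4

section

variable {Φ : ℕ → V → V} {ν T T' : ℝ} {u0 : V → V} {u v : ℝ → V → V}

theorem gsol_restrict (h : ESol ν Φ u0 T u) (hT : T' ≤ T) : ESol ν Φ u0 T' u where
  init := h.init
  mem t ht := h.mem t ⟨ht.1, ht.2.trans hT⟩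
  bdd := by
    obtain ⟨C, hC⟩ := h.bdd
    exact ⟨C, fun t ht => hC t ⟨ht.1, ht.2.trans hT⟩⟩
  eq k t ht := (h.eq k t ⟨ht.1, ht.2.trans hT⟩).mono (Icc_subset_Icc le_rfl hT)

theorem gsol_congr (hT : 0 ≤ T) (h : ESol ν Φ u0 T u) (e : ∀ t ∈ Icc 0 T, v t = u t) :
    ESol ν Φ u0 T v where
  init := by rw [e 0 ⟨le_rfl, hT⟩]; exact h.init
  mem t ht := by rw [e t ht]; exact h.mem t ht
  bdd := by
    obtain ⟨C, hC⟩ := h.bdd
    refine ⟨C, fun t ht x => ?_⟩
    rw [e t ht]
    exact hC t ht x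
  eq k t ht := by
    have h1 := h.eq k t ht
    rw [e t ht]
    exact h1.congr (fun s hs => by rw [e s hs]) (by rw [e t ht])

lemma hasDeriv_out {f : ℝ → ℝ} {c t : ℝ} {s : Set ℝ} (hs : IsClosed s) (ht : t ∉ s) :
    HasDerivWithinAt f c s t := by
  have : t ∉ closure s := by rwa [hs.closure_eq]
  rw [hasDerivWithinAt_iff_tendsto_slope']
  · have h0 : 𝓝[s] t = ⊥ := by
      rw [← notMem_closure_iff_nhdsWithin_eq_bot]
      exact this
    rw [h0]
    exact tendsto_bot
  · exact ht

/-- concatenation -/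
theorem gsol_glue {τ : ℝ} (hT : 0 ≤ T) (hτ : 0 ≤ τ) (h : ESol ν Φ u0 T u)
    (h' : ESol ν Φ (u T) τ v) :
    ESol ν Φ u0 (T + τ) (fun t => if t ≤ T then u t else v (t - T)) := by
  set z : ℝ → V → V := fun t => if t ≤ T then u t else v (t - T) with hz
  have z1 : ∀ t ≤ T, z t = u t := fun t ht => by rw [hz]; simp only; rw [if_pos ht]
  have z2 : ∀ t, T ≤ t → z t = v (t - T) := fun t ht => by
    rcases ht.eq_or_lt with e | e
    · rw [← e, z1 T le_rfl, sub_self, h'.init]
    · rw [hz]; simp only; rw [if_neg (not_le.2 e)]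
  refine ⟨?_, ?_, ?_, ?_⟩
  · rw [z1 0 hT]
    exact h.init
  · intro t ht
    rcases le_total t T with e | e
    · rw [z1 t e]
      exact h.mem t ⟨ht.1, e⟩
    · rw [z2 t e]
      exact h'.mem _ ⟨by linarith, by linarith [ht.2]⟩
  · obtain ⟨C, hC⟩ := h.bdd
    obtain ⟨C', hC'⟩ := h'.bdd
    refine ⟨max C C', fun t ht x => ?_⟩
    rcases le_total t T with e | e
    · rw [z1 t e]
      have := hC t ⟨ht.1, e⟩ x
      exact ⟨this.1.trans (le_max_left _ _), this.2.trans (le_max_left _ _)⟩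
    · rw [z2 t e]
      have := hC' (t - T) ⟨by linarith, by linarith [ht.2]⟩ x
      exact ⟨this.1.trans (le_max_right _ _), this.2.trans (le_max_right _ _)⟩
  · intro k t ht
    have hun : Icc (0 : ℝ) (T + τ) = Icc 0 T ∪ Icc T (T + τ) :=
      (Icc_union_Icc_eq_Icc hT (by linarith)).symm
    have d1 : HasDerivWithinAt (fun s => ip (z s) (Φ k))
        (tri (z t) (Φ k) (z t) - ν * dir (z t) (Φ k)) (Icc 0 T) t := by
      rcases le_or_gt t T with e | e
      · rw [z1 t e]
        exact (h.eq k t ⟨ht.1, e⟩).congr (fun s hs => by rw [z1 s hs.2]) (by rw [z1 t e])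
      · exact hasDeriv_out isClosed_Icc fun hh => absurd hh.2 (not_le.2 e)
    have d2 : HasDerivWithinAt (fun s => ip (z s) (Φ k))
        (tri (z t) (Φ k) (z t) - ν * dir (z t) (Φ k)) (Icc T (T + τ)) t := by
      rcases lt_or_ge t T with e | e
      · exact hasDeriv_out isClosed_Icc fun hh => absurd hh.1 (not_le.2 e)
      · rw [z2 t e]
        have h1 := h'.eq k (t - T) ⟨by linarith, by linarith [ht.2]⟩
        have h2 : HasDerivWithinAt (fun s : ℝ => s - T) 1 (Icc T (T + τ)) t :=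
          (hasDerivWithinAt_id t _).sub_const T
        have h3 := HasDerivWithinAt.comp t h1 h2 (fun s hs => by
          show s - T ∈ Icc 0 τ
          exact ⟨by linarith [hs.1], by linarith [hs.2]⟩)
        rw [mul_one] at h3
        refine h3.congr (fun s hs => ?_) ?_
        · show ip (z s) (Φ k) = ip (v (s - T)) (Φ k)
          rw [z2 s hs.1]
        · show ip (z t) (Φ k) = ip (v (t - T)) (Φ k)
          rw [z2 t e]
    rw [hun]
    exact d1.union d2

end

end Pool.Agent.H280R3.E5
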