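import Mathlib
import Pool.Agent.H280R3.E5.Pers

/-! The maximal solution: it exists, is unique and smooth, and its gradient blows up. -/

set_option autoImplicit false

open Set MeasureTheory Filter Topology Finset
open scoped RealInnerProductSpace ContDiff

namespace Pool.Agent.H280R3.E5

open Pool.Agent.H402V4

section

variable {φ ρ ψ : V → V} {x₁ : V} {M ε : ℕ → ℝ} {ν T : ℝ} {u0 : V → V} {u : ℝ → V → V}

lemma inX_out (P : Prof φ ρ ψ x₁) (S : Scl M ε) {v : V → V} (hv : InX (Fam φ ψ ρ M ε) v)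
    (x : V) (hx : sr ψ < ‖x‖) : v x = 0 := by
  rw [rep P S hv 0 x (by linarith [S.rad_half 0, sr_ge ψ]), PP_zero P S x hx]
  simp

/-- a gradient bound controls the field -/
lemma vel_le (P : Prof φ ρ ψ x₁) (S : Scl M ε) {v : V → V} (hv : InX (Fam φ ψ ρ M ε) v)
    {C : ℝ} (hC : ∀ x, ‖fderiv ℝ v x‖ ≤ C) (x : V) : ‖v x‖ ≤ (2 * sr ψ + 1) * C := by
  have hC0 : 0 ≤ C := (norm_nonneg _).trans (hC 0)
  have hs := sr_ge ψ
  rcases le_or_gt ‖x‖ (sr ψ) with hx | hx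
  · set y : V := (sr ψ + 1) • ev 0 with hy
    have hyn : ‖y‖ = sr ψ + 1 := by
      rw [hy, norm_smul, norm_ev, mul_one, Real.norm_of_nonneg (by linarith)]
    have h0 : v y = 0 := inX_out P S hv y (by rw [hyn]; linarith)
    have h1 := Convex.norm_image_sub_le_of_norm_fderiv_le (𝕜 := ℝ) (f := v) (C := C)
      (s := Set.univ) (x := y) (y := x) (fun z _ => hv.1.diff z) (fun z _ => hC z) convex_univ
      (mem_univ _) (mem_univ _)
    rw [h0, sub_zero] at h1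
    have h2 : ‖x - y‖ ≤ 2 * sr ψ + 1 := (norm_sub_le _ _).trans (by rw [hyn]; linarith)
    calc ‖v x‖ ≤ C * ‖x - y‖ := h1
      _ ≤ C * (2 * sr ψ + 1) := mul_le_mul_of_nonneg_left h2 hC0
      _ = _ := by ring
  · rw [inX_out P S hv x hx, norm_zero]
    positivity

lemma cf_le (P : Prof φ ρ ψ x₁) (S : Scl M ε) (C : ℝ) :
    ∃ c, 0 ≤ c ∧ ∀ v : V → V, (∀ x, ‖v x‖ ≤ C) → |cf ψ ρ M ε v| ≤ c := by
  obtain ⟨B0, hB0, hB⟩ := cs_bound (PP_TF P S).cont (R := sr ψ) (PP_zero P S)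
  have hP := PP_ip_pos P S
  have hv3 := vr_nonneg (sr ψ)
  refine ⟨|C| * B0 * vr (sr ψ) / ip (PP ψ ρ M ε) (PP ψ ρ M ε), by positivity, fun v hv => ?_⟩
  unfold cf
  rw [abs_div, abs_of_pos hP]
  refine div_le_div_of_nonneg_right ?_ hP.le
  unfold ip
  refine int_le_vr (fun x _ => ?_) (fun x hx => by rw [PP_zero P S x hx]; simp)
  refine (abs_real_inner_le_norm _ _).trans ?_
  exact mul_le_mul ((hv x).trans (le_abs_self C)) (hB x) (norm_nonneg _) (abs_nonneg _)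

end

section

variable {φ ρ ψ : V → V} {x₁ : V} {lam : ℝ} {ν T : ℝ} {u0 : V → V} {u : ℝ → V → V}

/-- a datum in the span has rapidly decaying coefficients -/
lemma span_decay (P : Prof φ ρ ψ x₁) {M ε : ℕ → ℝ} (S : Scl M ε) {w : V → V}
    (hw : w ∈ Submodule.span ℝ (range (Fam φ ψ ρ M ε))) (p : ℕ) :
    ∃ K0, ∀ l, |af φ M w l| ≤ K0 * (M l ^ p)⁻¹ := by
  have hF := φ_pos P
  obtain ⟨c, rfl⟩ := (Finsupp.mem_span_range_iff_exists_finsupp).1 hw
  have e : ∀ l, af φ M (c.sum fun i a => a • Fam φ ψ ρ M ε i) l = c (l + 1) := by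
    intro l
    unfold af
    rw [Finsupp.sum, ip_sum_left (fun j _ => ((Fam_TF P S j).smul _).cont) (φT P S l)]
    have h1 : ∀ j ∈ c.support, ip (c j • Fam φ ψ ρ M ε j) (sc (M l) φ)
        = if j = l + 1 then c (l + 1) * ip φ φ else 0 := by
      intro j _
      rw [ip_smul_left]
      split_ifs with h
      · rw [h]
        show c (l + 1) * ip (sc (M l) φ) (sc (M l) φ) = _
        rw [sc_ip (S.M_pos l)]
      · have h2 : ip (Fam φ ψ ρ M ε j) (Fam φ ψ ρ M ε (l + 1)) = 0 := fam_orth P S j (l + 1) h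
        have h3 : ip (Fam φ ψ ρ M ε j) (sc (M l) φ) = 0 := h2
        rw [h3, mul_zero]
    rw [sum_congr rfl h1, sum_ite_eq']
    split_ifs with h
    · field_simp
    · rw [Finsupp.notMem_support_iff.1 h, zero_div]
  refine ⟨∑ k ∈ c.support, |c k| * M (k - 1) ^ p, fun l => ?_⟩
  rw [e l]
  have hM := S.M_pos l
  rw [← div_eq_mul_inv, le_div_iff₀ (by positivity)]
  by_cases h : l + 1 ∈ c.support
  · have h2 := single_le_sum (f := fun k => |c k| * M (k - 1) ^ p)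
      (fun k _ => mul_nonneg (abs_nonneg _) (pow_nonneg (S.M_pos _).le _)) h
    simpa using h2
  · rw [Finsupp.notMem_support_iff.1 h, abs_zero, zero_mul]
    exact sum_nonneg fun k _ => mul_nonneg (abs_nonneg _) (pow_nonneg (S.M_pos _).le _)

/-- decay of all orders -/
theorem pers_all (P : Prof φ ρ ψ x₁) (S : Scl (MM lam) (EE lam)) (hν : 0 ≤ ν) (hT : 0 ≤ T)
    (hu0 : u0 ∈ Submodule.span ℝ (range (Fam φ ψ ρ (MM lam) (EE lam))))
    (h : ESol ν (Fam φ ψ ρ (MM lam) (EE lam)) u0 T u) (p : ℕ) :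
    ∃ K, ∀ t ∈ Icc 0 T, ∀ l, |af φ (MM lam) (u t) l| ≤ K * (MM lam l ^ (p + 5))⁻¹ := by
  obtain ⟨C, cm, hC0, hC, hcm⟩ := cf_bddE P S h
  induction p with
  | zero => exact ⟨2 * C, fun t ht l => af_base P S (h.mem t ht) (fun x => (hC t ht x).2) l⟩
  | succ p ih =>
    obtain ⟨K, hK⟩ := ih
    obtain ⟨K0, hK0⟩ := span_decay P S hu0 (p + 5 + 1)
    obtain ⟨K', hK'0, hK'⟩ := pers_step P S hν (p := p + 5) (by omega) C cm K K0 T hT
    refine ⟨K', fun t ht l => ?_⟩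
    have := hK' T u0 u hT le_rfl h hC hcm hK (by rw [h.init]; exact hK0) t ht l
    rw [show p + 1 + 5 = p + 5 + 1 by ring]
    exact this

/-- fields with coefficients decaying at all orders are smooth -/
theorem smooth_of_decay (P : Prof φ ρ ψ x₁) {M ε : ℕ → ℝ} (S : Scl M ε) {v : V → V}
    (hv : InX (Fam φ ψ ρ M ε) v) (hK : ∀ p : ℕ, ∃ K, ∀ l, |af φ M v l| ≤ K * (M l ^ p)⁻¹) :
    ContDiff ℝ ∞ v := by
  obtain ⟨θ, H⟩ := exists_maj P S
  obtain ⟨K6, hK6⟩ := hK 6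
  obtain ⟨b, hb, hvb⟩ := eq_UU P S hv (K := max |cf ψ ρ M ε v| K6) (le_max_left _ _)
    (fun l => (hK6 l).trans (mul_le_mul_of_nonneg_right (le_max_right _ _)
      (by have := S.M_pos l; positivity)))
  have haf : ∀ n, b (n + 1) * (M n ^ 6)⁻¹ = af φ M v n := by
    intro n
    rw [hvb, af_UU P S H hb]
  have hbφ : ∀ k : ℕ, ∃ C, 0 ≤ C ∧ ∀ x, ‖iteratedFDeriv ℝ k φ x‖ ≤ C := by
    intro k
    have hc : HasCompactSupport (iteratedFDeriv ℝ k φ) := P.φcs.iteratedFDeriv k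
    obtain ⟨C, hC⟩ := (P.φs.continuous_iteratedFDeriv (m := k)
      (by exact_mod_cast le_top)).bounded_above_of_compact_support hc
    exact ⟨C, (norm_nonneg _).trans (hC 0), hC⟩
  have hbP : ∀ k : ℕ, ∃ C, 0 ≤ C ∧ ∀ x, ‖iteratedFDeriv ℝ k (PP ψ ρ M ε) x‖ ≤ C := by
    intro k
    have hc : HasCompactSupport (iteratedFDeriv ℝ k (PP ψ ρ M ε)) := (PP_TF P S).cs.iteratedFDeriv k
    obtain ⟨C, hC⟩ := ((PP_smooth P S).continuous_iteratedFDeriv (m := k)
      (by exact_mod_cast le_top)).bounded_above_of_compact_support hc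
    exact ⟨C, (norm_nonneg _).trans (hC 0), hC⟩
  choose C hC0 hC using hbφ
  choose C' hC'0 hC' using hbP
  choose K hKK using hK
  rw [hvb]
  unfold UU
  refine contDiff_tsum (N := ⊤)
    (v := fun k n => Nat.casesOn n (|b 0| * C' k)
      fun n => |K (3 + 2 * k + 1)| * C k * (M n)⁻¹)
    (f := fun n => fun x => (b n * om M n) • Fam φ ψ ρ M ε n x) ?_ ?_ ?_
  · intro n
    have h1 : ContDiff ℝ ∞ (Fam φ ψ ρ M ε n) := by
      cases n with
      | zero => exact PP_smooth P S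
      | succ n => exact sc_cd P.φs
    exact h1.const_smul _
  · intro k _
    rw [← summable_nat_add_iff 1]
    exact (Minv_summable S).mul_left _
  · intro k n x _
    cases n with
    | zero =>
      have h3 : ContDiff ℝ k (PP ψ ρ M ε) := (PP_smooth P S).of_le (by exact_mod_cast le_top)
      have h2 : (fun x => (b 0 * om M 0) • Fam φ ψ ρ M ε 0 x) = (b 0 * om M 0) • PP ψ ρ M ε := rfl
      rw [h2, iteratedFDeriv_const_smul_apply h3.contDiffAt, norm_smul, Real.norm_eq_abs]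
      show |b 0 * 1| * _ ≤ |b 0| * C' k
      rw [mul_one]
      exact mul_le_mul_of_nonneg_left (hC' k x) (abs_nonneg _)
    | succ n =>
      have h3 : ContDiff ℝ k (sc (M n) φ) := (sc_cd P.φs).of_le (by exact_mod_cast le_top)
      have h2 : (fun x => (b (n + 1) * om M (n + 1)) • Fam φ ψ ρ M ε (n + 1) x)
          = af φ M v n • sc (M n) φ := by
        rw [← haf n]
        rfl
      have hM := S.M_pos n
      rw [h2, iteratedFDeriv_const_smul_apply h3.contDiffAt, norm_smul, Real.norm_eq_abs]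
      have h1 := sc_iter hM.le P.φs (hC k) x
      have h4 := hKK (3 + 2 * k + 1) n
      have h5 : K (3 + 2 * k + 1) * (M n ^ (3 + 2 * k + 1))⁻¹
          ≤ |K (3 + 2 * k + 1)| * (M n ^ (3 + 2 * k + 1))⁻¹ :=
        mul_le_mul_of_nonneg_right (le_abs_self _) (by positivity)
      calc |af φ M v n| * ‖iteratedFDeriv ℝ k (sc (M n) φ) x‖
          ≤ (|K (3 + 2 * k + 1)| * (M n ^ (3 + 2 * k + 1))⁻¹) * (M n ^ (3 + 2 * k) * C k) :=
            mul_le_mul (h4.trans h5) h1 (norm_nonneg _) (by positivity)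
        _ = |K (3 + 2 * k + 1)| * C k * (M n)⁻¹ := by
            rw [pow_succ (M n) (3 + 2 * k)]
            field_simp

/-- The maximal solution. -/
theorem max_sol (P : Prof φ ρ ψ x₁) (S : Scl (MM lam) (EE lam)) (hν : 0 ≤ ν)
    (hu0 : u0 ∈ Submodule.span ℝ (range (Fam φ ψ ρ (MM lam) (EE lam)))) {T0 : ℝ}
    (hno : ∀ u, ¬ ESol ν (Fam φ ψ ρ (MM lam) (EE lam)) u0 T0 u) :
    ∃ Ts, 0 < Ts ∧ Ts ≤ T0 ∧ ∃ u : ℝ → V → V,
      (∀ T ∈ Ioo 0 Ts, ESol ν (Fam φ ψ ρ (MM lam) (EE lam)) u0 T u) ∧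
      (∀ t ∈ Ico 0 Ts, ContDiff ℝ ∞ (u t)) ∧
      (∀ T ∈ Ioo 0 Ts, ∀ v, ESol ν (Fam φ ψ ρ (MM lam) (EE lam)) u0 T v →
        ∀ t ∈ Icc 0 T, v t = u t) ∧
      ∀ C, ∃ t ∈ Ico 0 Ts, ∃ x, C < ‖fderiv ℝ (u t) x‖ := by
  classical
  set Φ := Fam φ ψ ρ (MM lam) (EE lam) with hΦ
  set A : Set ℝ := {T | 0 < T ∧ ∃ u, ESol ν Φ u0 T u} with hA
  obtain ⟨τ0, hτ0, u1, hu1⟩ := loc_span P S hν hu0
  have hAne : A.Nonempty := ⟨τ0, hτ0, u1, hu1⟩
  have hAb : ∀ T ∈ A, T ≤ T0 := by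
    rintro T ⟨_, v, hv⟩
    by_contra hlt
    push Not at hlt
    exact hno v (gsol_restrict hv hlt.le)
  have hbdd : BddAbove A := ⟨T0, hAb⟩
  set Ts := sSup A with hTs
  have hTs0 : 0 < Ts := hτ0.trans_le (le_csSup hbdd ⟨hτ0, u1, hu1⟩)
  have hex : ∀ T < Ts, ∃ v, ESol ν Φ u0 T v := by
    intro T hT
    obtain ⟨T', ⟨_, v, hv⟩, hlt⟩ := exists_lt_of_lt_csSup hAne hT
    exact ⟨v, gsol_restrict hv hlt.le⟩
  choose! U hU using hex
  set u : ℝ → V → V := fun t => U ((t + Ts) / 2) t with hu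
  have hagree : ∀ T, 0 < T → T < Ts → ∀ t ∈ Icc 0 T, u t = U ((T + Ts) / 2) t := by
    intro T hT0' hT t ht
    have h1 : (t + Ts) / 2 ≤ (T + Ts) / 2 := by linarith [ht.2]
    have h2 := hU ((t + Ts) / 2) (by linarith [ht.2])
    have h3 := gsol_restrict (hU ((T + Ts) / 2) (by linarith)) h1
    exact gsol_unique P S hν (by linarith [ht.1]) h2 h3 ⟨ht.1, by linarith [ht.2]⟩
  have hsol : ∀ T ∈ Ioo 0 Ts, ESol ν Φ u0 T u := by
    intro T hT
    exact gsol_congr hT.1.le (gsol_restrict (hU ((T + Ts) / 2) (by linarith [hT.2]))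
      (by linarith [hT.2])) (hagree T hT.1 hT.2)
  have hmem : ∀ t ∈ Ico 0 Ts, ∃ T ∈ Ioo 0 Ts, t ∈ Icc 0 T := fun t ht =>
    ⟨(t + Ts) / 2, ⟨by linarith [ht.1], by linarith [ht.2]⟩, ht.1, by linarith [ht.2]⟩
  refine ⟨Ts, hTs0, csSup_le hAne hAb, u, hsol, ?_, ?_, ?_⟩
  · intro t ht
    obtain ⟨T, hT, htT⟩ := hmem t ht
    refine smooth_of_decay P S ((hsol T hT).mem t htT) fun p => ?_
    obtain ⟨K, hK⟩ := pers_all P S hν hT.1.le hu0 (hsol T hT) p
    refine ⟨|K|, fun l => ((hK t htT l).trans ?_)⟩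
    have hM := S.M_pos l
    have h1 : (MM lam l ^ (p + 5))⁻¹ ≤ (MM lam l ^ p)⁻¹ :=
      inv_anti₀ (by positivity) (pow_le_pow_right₀ (M_one S l) (by omega))
    exact mul_le_mul (le_abs_self _) h1 (by positivity) (abs_nonneg _)
  · intro T hT v hv t ht
    exact gsol_unique P S hν hT.1.le hv (hsol T hT) ht
  · by_contra hcon
    push Not at hcon
    obtain ⟨C, hC⟩ := hcon
    have hC0 : 0 ≤ C := (norm_nonneg _).trans (hC 0 ⟨le_rfl, hTs0⟩ 0)
    have hC' : ∀ t ∈ Ico 0 Ts, ∀ x, ‖u t x‖ ≤ (2 * sr ψ + 1) * C ∧ ‖fderiv ℝ (u t) x‖ ≤ (2 * sr ψ + 1) * C := by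
      intro t ht x
      obtain ⟨T, hT, htT⟩ := hmem t ht
      exact ⟨vel_le P S ((hsol T hT).mem t htT) (hC t ht) x, (hC t ht x).trans (by
        have := sr_ge ψ; nlinarith)⟩
    obtain ⟨c, hc0, hc⟩ := cf_le P S ((2 * sr ψ + 1) * C)
    obtain ⟨K0, hK0⟩ := span_decay P S hu0 6
    obtain ⟨K', hK'0, hK'⟩ := pers_step P S hν (p := 5) le_rfl ((2 * sr ψ + 1) * C) c (2 * ((2 * sr ψ + 1) * C)) K0 Ts
      hTs0.le
    have hdec : ∀ t ∈ Ico 0 Ts, ∀ l, |af φ (MM lam) (u t) l| ≤ K' * (MM lam l ^ 6)⁻¹ := by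
      intro t ht
      obtain ⟨T, hT, htT⟩ := hmem t ht
      have hsub : ∀ s ∈ Icc 0 T, s ∈ Ico 0 Ts := fun s hs => ⟨hs.1, hs.2.trans_lt hT.2⟩
      exact hK' T u0 u hT.1.le hT.2.le (hsol T hT) (fun s hs => hC' s (hsub s hs))
        (fun s hs => hc _ fun x => (hC' s (hsub s hs) x).1)
        (fun s hs l => af_base P S ((hsol T hT).mem s hs) (fun x => (hC' s (hsub s hs) x).2) l)
        (by rw [(hsol T hT).init]; exact hK0) t htT
    obtain ⟨τ, hτ, hloc⟩ := loc P S hν (r := max c K') (hc0.trans (le_max_left _ _))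
    set t1 := max (Ts / 2) (Ts - τ / 2) with ht1
    have ht1lt : t1 < Ts := max_lt (by linarith) (by linarith)
    have ht10 : 0 < t1 := lt_of_lt_of_le (by linarith) (le_max_left _ _)
    have ht1I : t1 ∈ Ico 0 Ts := ⟨ht10.le, ht1lt⟩
    have hs1 := hsol t1 ⟨ht10, ht1lt⟩
    obtain ⟨b, hb, hub⟩ := eq_UU P S (hs1.mem t1 ⟨ht10.le, le_rfl⟩) (K := max c K')
      ((hc _ fun x => (hC' t1 ht1I x).1).trans (le_max_left _ _))
      (fun l => (hdec t1 ht1I l).trans (mul_le_mul_of_nonneg_right (le_max_right _ _)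
        (by have := S.M_pos l; positivity)))
    obtain ⟨w, hw⟩ := hloc b hb
    rw [← hub] at hw
    have hglue := gsol_glue ht10.le hτ.le hs1 hw
    have hin : t1 + τ ∈ A := ⟨by linarith, _, hglue⟩
    have h1 := le_csSup hbdd hin
    have h2 : Ts - τ / 2 ≤ t1 := le_max_right _ _
    linarith

end

end Pool.Agent.H280R3.E5
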