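import Mathlib
import Pool.Agent.H280R3.E5.Ener
import Pool.Agent.H280R3.E5.Bkm
import Pool.Agent.H402V4.Final

/-! Blow-up near arbitrary data on `ℝ³`, with `0 ≤ ν`. The structure of the proof is that of
`Pool.Agent.H402V4.final` (helper402). -/

set_option autoImplicit false

open Set MeasureTheory Filter Topology
open scoped RealInnerProductSpace ContDiff

namespace Pool.Agent.H280R3.E5

open Pool.Agent.H402V4

theorem curl_Tr {l : ℝ} {p : V} {f : V → V} (hf : Differentiable ℝ f) (x : V) :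
    curl (Tr l p f) x = l ^ 2 • curl f (l • (x - p)) := by
  rw [curl_eq, Tr_fderiv hf, cu_smul, ← curl_eq]

theorem ESol.trans' {l : ℝ} {p : V} (hl : 0 < l) {ν T : ℝ} {Φ : ℕ → V → V}
    (hΦ : ∀ k, Differentiable ℝ (Φ k)) {u0 : V → V} {u : ℝ → V → V} (h : ESol ν Φ u0 T u) :
    ESol ν (fun k => Tr l p (Φ k)) (Tr l p u0) (T / l ^ 2) (fun t => Tr l p (u (l ^ 2 * t))) := by
  have h1 := h.toG.trans (p := p) hl hΦ
  refine ⟨h1.init, h1.mem, ?_, h1.eq⟩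
  obtain ⟨C, hC⟩ := h.bdd
  have hl2 : 0 < l ^ 2 := by positivity
  refine ⟨l * |C| + l ^ 2 * |C|, fun t ht x => ?_⟩
  have hm : l ^ 2 * t ∈ Icc 0 T := by
    have h2 := ht.2
    rw [le_div_iff₀ hl2] at h2
    exact ⟨mul_nonneg hl2.le ht.1, by linarith⟩
  have hC' := hC _ hm (l • (x - p))
  have hd := (h.mem _ hm).1.diff
  constructor
  · show ‖l • u (l ^ 2 * t) (l • (x - p))‖ ≤ _
    rw [norm_smul, Real.norm_of_nonneg hl.le]
    have := mul_le_mul_of_nonneg_left (hC'.1.trans (le_abs_self C)) hl.le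
    have h3 : 0 ≤ l ^ 2 * |C| := by positivity
    linarith
  · rw [Tr_fderiv hd, norm_smul, Real.norm_of_nonneg hl2.le]
    have := mul_le_mul_of_nonneg_left (hC'.2.trans (le_abs_self C)) hl2.le
    have h3 : 0 ≤ l * |C| := by positivity
    linarith

theorem finalE (ν : ℝ) (hν : 0 ≤ ν) (w : V → V) (hw : ContDiff ℝ ∞ w) (hwc : HasCompactSupport w)
    (hwd : ∀ x, divg w x = 0) (p : V) (hp : p ∉ tsupport w) (ε : ℝ) (hε : 0 < ε) :
    ∃ (Φ : ℕ → V → V) (u₀ : V → V) (Ts : ℝ) (u : ℝ → V → V),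
      (∀ k, ContDiff ℝ ∞ (Φ k) ∧ HasCompactSupport (Φ k) ∧ ∀ x, divg (Φ k) x = 0) ∧
      (∀ j k, j ≠ k → ip (Φ j) (Φ k) = 0) ∧
      (∀ x, ε ≤ ‖x - p‖ → Φ 0 x = w x ∧ ∀ n, Φ (n + 1) x = 0) ∧
      u₀ ∈ Submodule.span ℝ (range Φ) ∧
      (∀ x, ε ≤ ‖x - p‖ → u₀ x = w x) ∧ ip (u₀ - w) (u₀ - w) < ε ∧
      0 < Ts ∧ Ts < ε ∧
      (∀ T, 0 ≤ T → T < Ts → ESol ν Φ u₀ T u) ∧
      (∀ t, 0 ≤ t → t < Ts → ContDiff ℝ ∞ (u t) ∧
        ip (u t) (u t) + 2 * ν * ∫ s in (0)..t, dir (u s) (u s) = ip u₀ u₀) ∧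
      (∀ g : ℝ → ℝ, IntegrableOn g (Ioo 0 Ts) →
        ∃ t, 0 ≤ t ∧ t < Ts ∧ ∃ x, g t < ‖curl (u t) x‖) ∧
      (∀ δ > 0, ∀ k : ℕ, ∃ C, ∀ t, 0 ≤ t → t < Ts → ∀ x, δ ≤ ‖x - p‖ →
        ‖iteratedFDeriv ℝ k (u t) x‖ ≤ C) ∧
      (∀ T v, 0 ≤ T → ESol ν Φ u₀ T v → T < Ts ∧ ∀ t ∈ Icc 0 T, v t = u t) := by
  obtain ⟨φ, ρ, ψ₀, x₁, P₀⟩ := exists_prof
  have hwT : TF w := ⟨hw.of_le (by exact_mod_cast le_top), hwc, hwd⟩
  obtain ⟨r, hr, hwr⟩ : ∃ r > 0, ∀ x, ‖x - p‖ < r → w x = 0 := by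
    have h1 : (tsupport w)ᶜ ∈ 𝓝 p := (isClosed_tsupport w).isOpen_compl.mem_nhds hp
    obtain ⟨r, hr, h2⟩ := Metric.mem_nhds_iff.mp h1
    refine ⟨r, hr, fun x hx => image_eq_zero_of_notMem_tsupport (h2 ?_)⟩
    simpa [dist_eq_norm] using hx
  have hF := φ_pos P₀
  have hv1 := vr_nonneg 1
  have hψ₀ := P₀.ψ_pos
  have hsr := sr_ge ψ₀
  set K₁ := 3 * (2 * ip φ φ + vr 1) with hK₁
  have hK₁0 : 0 ≤ K₁ := by positivity
  set K := 2 * (K₁ + ip ψ₀ ψ₀) with hK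
  have hK0 : 0 ≤ K := by positivity
  set l := 1 + 5 / 4 / r + (K + sr ψ₀ + 1) / ε with hldef
  have hl1 : 1 ≤ l := by
    have h1 : 0 ≤ 5 / 4 / r := by positivity
    have h2 : 0 ≤ (K + sr ψ₀ + 1) / ε := by positivity
    linarith
  have hl : 0 < l := by linarith
  have hlr : 5 / 4 ≤ l * r := by
    have h1 : 5 / 4 / r ≤ l := by
      have h2 : 0 ≤ (K + sr ψ₀ + 1) / ε := by positivity
      linarith
    rwa [div_le_iff₀ hr] at h1
  have hlε : K + sr ψ₀ + 1 ≤ l * ε := by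
    have h1 : (K + sr ψ₀ + 1) / ε ≤ l := by
      have h2 : 0 ≤ 5 / 4 / r := by positivity
      linarith
    rwa [div_le_iff₀ hε] at h1
  have hli : 0 < l⁻¹ := by positivity
  set χ := Tr l⁻¹ (-(l • p)) w with hχ
  have hχT : TF χ := Tr_TF hli hwT
  obtain ⟨ψ, P, hψ1, hψ2⟩ : ∃ ψ, Prof φ ρ ψ x₁ ∧ (∀ x, sr ψ₀ < ‖x‖ → ψ x = χ x) ∧
      ip (ψ - χ) (ψ - χ) ≤ ip ψ₀ ψ₀ := by
    by_cases h0 : ∃ y, w y ≠ 0
    · obtain ⟨y, hy⟩ := h0
      refine ⟨χ, P₀.change (Tr_cd hw) (Tr_cs hli hwc) hχT.dv ?_ ?_, fun x _ => rfl, ?_⟩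
      · intro x hx
        rw [hχ]
        unfold Tr
        rw [hwr, smul_zero]
        have h1 : l⁻¹ • (x - -(l • p)) - p = l⁻¹ • x := by
          rw [sub_neg_eq_add, smul_add, smul_smul, inv_mul_cancel₀ hl.ne', one_smul,
            add_sub_cancel_right]
        rw [h1, norm_smul, Real.norm_eq_abs, abs_of_pos hli]
        rw [inv_mul_lt_iff₀ hl]
        linarith
      · rw [hχ, Tr_ip hli]
        have := ip_self_pos hwT hy
        positivity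
      · have : ip (χ - χ) (χ - χ) = 0 := by unfold ip; simp
        rw [this]
        exact hψ₀.le
    · push Not at h0
      have hχ0 : ∀ x, χ x = 0 := fun x => by rw [hχ]; unfold Tr; rw [h0, smul_zero]
      refine ⟨ψ₀, P₀, fun x hx => ?_, ?_⟩
      · rw [hχ0, P₀.ψ0' x hx]
      · have : ψ₀ - χ = ψ₀ := by ext1 x; simp [hχ0]
        rw [this]
  obtain ⟨T, lam, E, G, hdiff⟩ := exists_good0 P hν
  obtain ⟨Ts, u, h1, h1', h2, h3, h4, h5⟩ := G.maximalB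
  have hSc := G.S
  set Φ₀ := Fam φ ψ ρ (MM lam) (EE lam) with hΦ₀
  set v₀ := u00 φ ψ ρ lam (dd φ lam) with hv₀
  have hΦT : ∀ k, TF (Φ₀ k) := fun k => Fam_TF P G.S k
  have hΦs : ∀ k, ContDiff ℝ ∞ (Φ₀ k) := fun k => by
    cases k with
    | zero => exact PP_smooth P G.S
    | succ n => exact sc_cd P.φs
  have hspan : v₀ ∈ Submodule.span ℝ (range Φ₀) := by
    have h0 : ∀ k, Φ₀ k ∈ Submodule.span ℝ (range Φ₀) := fun k => Submodule.subset_span ⟨k, rfl⟩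
    exact Submodule.add_mem _ (Submodule.add_mem _ (h0 1) (Submodule.smul_mem _ _ (h0 2))) (h0 0)
  have hv₀T : TF v₀ := ((hΦT 1).add ((hΦT 2).smul _)).add (hΦT 0)
  have hl2 : 0 < l ^ 2 := by positivity
  have hwχ : Tr l p χ = w := Tr_inv' hl w
  refine ⟨fun k => Tr l p (Φ₀ k), Tr l p v₀, Ts / l ^ 2, fun t => Tr l p (u (l ^ 2 * t)),
    fun k => ⟨Tr_cd (hΦs k), Tr_cs hl (hΦT k).cs, (Tr_TF hl (hΦT k)).dv⟩, fun j k hjk => ?_,
    ?_,
    Tr_span hspan, ?_, ?_, by positivity, ?_, ?_, ?_, ?_, ?_, ?_⟩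
  · rw [Tr_ip hl, hΦ₀, Fam_orth P hSc j k hjk, mul_zero]
  · intro x hx
    have e1 : sr ψ₀ < ‖l • (x - p)‖ := by
      rw [norm_smul, Real.norm_eq_abs, abs_of_pos hl]
      have := mul_le_mul_of_nonneg_left hx hl.le
      linarith
    have hr0 := hSc.rad_half 0
    constructor
    · have e2 : Tr l p (Φ₀ 0) x = Tr l p χ x := by
        show l • PP ψ ρ (MM lam) (EE lam) (l • (x - p)) = l • χ (l • (x - p))
        rw [PP_out P hSc 0 _ (by linarith), Pn_apply, ← hψ1 _ e1]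
        simp
      beta_reduce
      rw [e2, hwχ]
    · intro n
      have hrn := hSc.rad_half n
      show l • sc (MM lam n) φ (l • (x - p)) = 0
      rw [φ_out P hSc n _ (by linarith), smul_zero]
  · intro x hx
    have e1 : sr ψ₀ < ‖l • (x - p)‖ := by
      rw [norm_smul, Real.norm_eq_abs, abs_of_pos hl]
      have := mul_le_mul_of_nonneg_left hx hl.le
      linarith
    have e2 : Tr l p v₀ x = Tr l p χ x := by
      unfold Tr
      rw [hv₀, u00_out P hSc _ _ (by linarith), hψ1 _ e1]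
    rw [e2, hwχ]
  · have e1 : Tr l p v₀ - w = Tr l p (v₀ - χ) := by
      rw [Tr_sub, hwχ]
    rw [e1, Tr_ip hl]
    have e2 : ip (v₀ - χ) (v₀ - χ) ≤ K := by
      have e3 : v₀ - χ = (v₀ - ψ) + (ψ - χ) := by abel
      rw [e3]
      refine (ip_add_le (hv₀T.sub P.ψT) (P.ψT.sub hχT)).trans ?_
      linarith
    rw [inv_mul_lt_iff₀ hl]
    linarith
  · rw [div_lt_iff₀ hl2]
    have e1 : Ts ≤ 1 := h1'.trans G.T_le
    have e2 : l * ε ≤ l ^ 2 * ε := by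
      have : l ≤ l ^ 2 := by nlinarith
      exact mul_le_mul_of_nonneg_right this hε.le
    linarith
  · intro T' hT'0 hT'
    rw [lt_div_iff₀ hl2] at hT'
    have e1 := (h2 (T' * l ^ 2) (by positivity) hT').trans' (p := p) hl (fun k => (hΦT k).diff)
    rwa [mul_div_assoc, div_self hl2.ne', mul_one] at e1
  · intro t ht0 ht
    rw [lt_div_iff₀ hl2] at ht
    have ht' : l ^ 2 * t < Ts := by linarith
    have ht0' : 0 ≤ l ^ 2 * t := by positivity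
    refine ⟨Tr_cd (h3 (l ^ 2 * t) ht0' ht'), ?_⟩
    have hs := h2 (l ^ 2 * t) ht0' ht'
    have e1 := energyE P hSc hν ht0' ((ht'.le.trans h1').trans G.T_le) hs ⟨ht0', le_rfl⟩
    have e2 : ∫ s in (0)..t, dir (Tr l p (u (l ^ 2 * s))) (Tr l p (u (l ^ 2 * s)))
        = ∫ s in (0)..t, l * dir (u (l ^ 2 * s)) (u (l ^ 2 * s)) := by
      refine intervalIntegral.integral_congr fun s hs' => ?_
      rw [uIcc_of_le ht0] at hs'
      have hd := (hs.mem (l ^ 2 * s) ⟨mul_nonneg hl2.le hs'.1,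
        mul_le_mul_of_nonneg_left hs'.2 hl2.le⟩).1.diff
      exact Tr_dir hl hd hd
    have e3 : ∫ s in (0)..t, l * dir (u (l ^ 2 * s)) (u (l ^ 2 * s))
        = l * ((l ^ 2)⁻¹ * ∫ s in (0)..(l ^ 2 * t), dir (u s) (u s)) := by
      rw [intervalIntegral.integral_const_mul,
        intervalIntegral.integral_comp_mul_left (fun s => dir (u s) (u s)) hl2.ne', mul_zero,
        smul_eq_mul]
    beta_reduce
    rw [e2, e3, Tr_ip hl, Tr_ip hl, ← e1]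
    field_simp
  · intro g hg
    obtain ⟨t, ht0, ht, x, hx⟩ := h4 (fun t => g (t / l ^ 2) / l ^ 2)
      ((int_div h1.le hl2 hg).div_const _)
    refine ⟨t / l ^ 2, by positivity, div_lt_div_of_pos_right ht hl2, l⁻¹ • x + p, ?_⟩
    have e1 : l ^ 2 * (t / l ^ 2) = t := by field_simp
    have hd := ((h2 t ht0 ht).mem t ⟨ht0, le_rfl⟩).1.diff
    beta_reduce
    rw [e1, curl_Tr hd, add_sub_cancel_right, smul_smul, mul_inv_cancel₀ hl.ne', one_smul,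
      norm_smul, Real.norm_eq_abs, abs_of_pos hl2]
    beta_reduce at hx
    rw [div_lt_iff₀ hl2] at hx
    linarith
  · intro δ hδ k
    obtain ⟨N, R, hN⟩ := G.near (δ := l * (δ / 2)) (by positivity)
    obtain ⟨C, hC⟩ := comb_bound (f := fun k => Tr l p (Φ₀ k)) (fun k => Tr_cd (hΦs k))
      (fun k => Tr_cs hl (hΦT k).cs) R k N
    refine ⟨C, fun t ht0 ht x hx => ?_⟩
    rw [lt_div_iff₀ hl2] at ht
    have ht' : l ^ 2 * t < Ts := by linarith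
    have ht0' : 0 ≤ l ^ 2 * t := by positivity
    obtain ⟨c, hc1, hc2⟩ := hN _ u ht0' (ht'.le.trans h1') (h2 _ ht0' ht').toG _ ⟨ht0', le_rfl⟩
    have hev : Tr l p (u (l ^ 2 * t)) =ᶠ[𝓝 x] fun x => ∑ m ∈ Finset.range N, c m • Tr l p (Φ₀ m) x := by
      have hcont : ContinuousAt (fun y : V => ‖y - p‖) x := by fun_prop
      filter_upwards [hcont.eventually (lt_mem_nhds (show δ / 2 < ‖x - p‖ by linarith))] with y hy
      unfold Tr
      rw [hc2 _ (by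
        rw [norm_smul, Real.norm_eq_abs, abs_of_pos hl]
        exact mul_lt_mul_of_pos_left hy hl), Finset.smul_sum]
      refine Finset.sum_congr rfl fun m _ => ?_
      rw [smul_comm]
    beta_reduce
    rw [(hev.iteratedFDeriv ℝ k).eq_of_nhds]
    exact hC c hc1 x
  · intro T' v hT'0 hv
    have e1 := hv.trans' (p := -(l • p)) hli (fun k => (Tr_TF hl (hΦT k)).diff)
    have e2 : (fun k => Tr l⁻¹ (-(l • p)) (Tr l p (Φ₀ k))) = Φ₀ := by
      funext k; exact Tr_inv hl _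
    have e3 : T' / l⁻¹ ^ 2 = l ^ 2 * T' := by field_simp
    rw [e2, Tr_inv hl, e3] at e1
    obtain ⟨e4, e5⟩ := h5 (l ^ 2 * T') _ (by positivity) e1
    refine ⟨by rw [lt_div_iff₀ hl2]; linarith, fun t ht => ?_⟩
    have e6 := e5 (l ^ 2 * t) ⟨mul_nonneg hl2.le ht.1, mul_le_mul_of_nonneg_left ht.2 hl2.le⟩
    have e7 : l⁻¹ ^ 2 * (l ^ 2 * t) = t := by field_simp
    rw [e7] at e6
    beta_reduce
    rw [← e6, Tr_inv' hl]


end Pool.Agent.H280R3.E5
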