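import Mathlib
import Pool.Agent.H280R3.E5.Tor

/-! The maximal solution of the projected Euler equations on the torus. -/

set_option autoImplicit false

open Set MeasureTheory Filter Topology Finset
open scoped RealInnerProductSpace ContDiff

namespace Pool.Agent.H280R3.E5

open Pool.Agent.H402V4

/-- the fields `Ψ k` are smooth, periodic, divergence-free and pairwise orthogonal in `L²(𝕋³)` -/
structure TorAdm (Ψ : ℕ → V → V) : Prop where
  smooth : ∀ k, ContDiff ℝ ∞ (Ψ k)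
  per : ∀ k, Per (Ψ k)
  dv : ∀ k x, divg (Ψ k) x = 0
  orth : ∀ j k, j ≠ k → ∫ x in cell, ⟪Ψ j x, Ψ k x⟫ = 0

/-- `u` is, on `[0, Ts)`, the unique maximal solution from `u₀`: it solves the projected Euler
equations on every `[0, T]` with `T < Ts`; every solution on an interval `[0, T]` has `T < Ts` and
agrees with `u`; moreover `u` is smooth in space and its energy is conserved. -/
structure TorMax (Ψ : ℕ → V → V) (u₀ : V → V) (Ts : ℝ) (u : ℝ → V → V) : Prop where
  sol : ∀ T, 0 ≤ T → T < Ts → TorSol Ψ u₀ T u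
  uniq : ∀ T v, 0 ≤ T → TorSol Ψ u₀ T v → T < Ts ∧ ∀ t ∈ Icc 0 T, v t = u t
  smooth : ∀ t ∈ Ico 0 Ts, ContDiff ℝ ∞ (u t)
  energy : ∀ t ∈ Ico 0 Ts, ∫ x in cell, ‖u t x‖ ^ 2 = ∫ x in cell, ‖u₀ x‖ ^ 2

/-- the maximum of the vorticity of `u` has no integrable majorant on `(0, Ts)`, while all the
derivatives of `u` stay bounded away from the point `p` of the cell -/
structure TorBlow (p : V) (Ts : ℝ) (u : ℝ → V → V) : Prop where
  vort : ∀ g : ℝ → ℝ, IntegrableOn g (Ioo 0 Ts) → ∃ t ∈ Ico 0 Ts, ∃ x, g t < ‖curl (u t) x‖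
  away : ∀ δ > 0, ∀ k : ℕ, ∃ C, ∀ t ∈ Ico 0 Ts, ∀ x ∈ cell, δ ≤ ‖x - p‖ →
    ‖iteratedFDeriv ℝ k (u t) x‖ ≤ C

section

variable {m : ℝ} {Φ : ℕ → V → V} {u0 : V → V} {T : ℝ} {u v : ℝ → V → V}

theorem space_to_tor (hm : m < Real.pi) (hΦo : ∀ k, Out m (Φ k))
    (hX : ∀ v, InX Φ v → Out m v) (h : ESol 0 Φ u0 T v) :
    TorSol (fun k => pe (Φ k)) (pe u0) T (fun t => pe (v t)) := by
  have ho : ∀ t ∈ Icc 0 T, Out m (v t) := fun t ht => hX _ (h.mem t ht)
  refine ⟨?_, fun t _ => pe_per _, fun t ht => pe_contDiff hm (ho t ht) (h.mem t ht).1.cd,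
    fun t ht x => pe_div hm (ho t ht) (h.mem t ht).1.dv x, ?_, ?_, ?_⟩
  · show pe (v 0) = pe u0
    rw [h.init]
  · intro t ht η hη
    obtain ⟨w, hw, hle⟩ := (h.mem t ht).2 η hη
    have hwo := span_out hΦo hw
    refine ⟨pe w, pe_span hw, le_trans (le_of_eq ?_) hle⟩
    refine int_cell hm (fun x hx => by simp [ho t ht x hx, hwo x hx]) fun x hx => ?_
    show ‖pe (v t) x - pe w x‖ ^ 2 = _
    rw [pe_cell hm (ho t ht) hx, pe_cell hm hwo hx]
  · obtain ⟨C, hC⟩ := h.bdd
    refine ⟨C, fun t ht x => ⟨(hC t ht (red x)).1, ?_⟩⟩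
    show ‖fderiv ℝ (pe (v t)) x‖ ≤ C
    rw [pe_fderiv hm (ho t ht)]
    exact (hC t ht (red x)).2
  · intro k t ht
    have h1 := h.eq k t ht
    have e1 : ∀ s ∈ Icc 0 T, ∫ x in cell, ⟪pe (v s) x, pe (Φ k) x⟫ = ip (v s) (Φ k) := by
      intro s hs
      refine int_cell hm (fun x hx => by simp [ho s hs x hx]) fun x hx => ?_
      rw [pe_cell hm (ho s hs) hx, pe_cell hm (hΦo k) hx]
    have e2 : ∫ x in cell, ⟪pe (v t) x, fderiv ℝ (pe (Φ k)) x (pe (v t) x)⟫
        = tri (v t) (Φ k) (v t) := by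
      refine int_cell hm (fun x hx => by simp [ho t ht x hx]) fun x hx => ?_
      rw [pe_cell hm (ho t ht) hx, pe_fderiv_cell hm (hΦo k) hx]
    rw [e2]
    have h2 : tri (v t) (Φ k) (v t) - 0 * dir (v t) (Φ k) = tri (v t) (Φ k) (v t) := by ring
    rw [h2] at h1
    exact h1.congr e1 (e1 t ht)

/-- a continuous periodic field vanishing in the cell outside the box is the periodic extension
of its cut-off -/
lemma eq_pe (hm : m < Real.pi) {f : V → V} (hf : Per f) (hc : Continuous f)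
    (hz : ∀ x ∈ interior cell, m < bx x → f x = 0) : f = pe (cutoff m f) := by
  have hcell : ∀ y ∈ cell, m < bx y → f y = 0 := by
    intro y hy h3
    have h0 : bx (0 : V) < Real.pi := by
      have : bx (0 : V) ≤ 0 := (bx_le le_rfl).2 fun i => by simp
      linarith [Real.pi_pos]
    have hne : (interior cell).Nonempty :=
      ⟨0, mem_interior_iff_mem_nhds.2 (cell_nhds h0)⟩
    have hcl : y ∈ closure (interior cell) := by
      rw [cell_convex.closure_interior_eq_closure_of_nonempty_interior hne]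
      exact subset_closure hy
    have ho : IsOpen {z : V | m < bx z} := isOpen_lt continuous_const bx_cont
    have hcl2 : y ∈ closure ({z : V | m < bx z} ∩ interior cell) :=
      ho.inter_closure ⟨h3, hcl⟩
    have hsub : ({z : V | m < bx z} ∩ interior cell) ⊆ f ⁻¹' {0} := fun z hz' => hz z hz'.2 hz'.1
    exact closure_minimal hsub (isClosed_singleton.preimage hc) hcl2
  funext x
  rw [← per_red hf x]
  show f (red x) = cutoff m f (red x)
  unfold cutoff
  split_ifs with h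
  · rfl
  · exact hcell _ (red_cell x) (not_le.1 h)

lemma int_sq (hm : m < Real.pi) {f : V → V} (hf : Out m f) :
    ∫ x in cell, ‖pe f x‖ ^ 2 = ip f f := by
  refine int_cell hm (fun x hx => by simp [hf x hx]) fun x hx => ?_
  rw [pe_cell hm hf hx, real_inner_self_eq_norm_sq]

end

/-- time scaling -/
theorem tor_scale {Ψ : ℕ → V → V} {u0 : V → V} {T c : ℝ} {u : ℝ → V → V} (hc0 : 0 < c)
    (h : TorSol Ψ u0 T u) : TorSol Ψ (c • u0) (T / c) (fun t => c • u (c * t)) := by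
  have hmem : ∀ t ∈ Icc 0 (T / c), c * t ∈ Icc 0 T := by
    intro t ht
    have h2 := ht.2
    rw [le_div_iff₀ hc0] at h2
    exact ⟨mul_nonneg hc0.le ht.1, by linarith⟩
  have hfd : ∀ t ∈ Icc 0 (T / c), ∀ x, fderiv ℝ (c • u (c * t)) x = c • fderiv ℝ (u (c * t)) x := by
    intro t ht x
    exact fderiv_const_smul ((h.cd _ (hmem t ht)).differentiable (by norm_num)).differentiableAt c
  refine ⟨?_, ?_, ?_, ?_, ?_, ?_, ?_⟩
  · show c • u (c * 0) = c • u0
    rw [mul_zero, h.init]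
  · intro t ht i x
    show c • u (c * t) (x + (2 * Real.pi) • ev i) = c • u (c * t) x
    rw [h.per _ (hmem t ht) i x]
  · intro t ht
    exact (h.cd _ (hmem t ht)).const_smul c
  · intro t ht x
    unfold divg
    rw [hfd t ht x]
    have := h.dv _ (hmem t ht) x
    unfold divg at this
    simp only [_root_.smul_apply, PiLp.smul_apply, smul_eq_mul]
    rw [← Finset.mul_sum, this, mul_zero]
  · intro t ht η hη
    obtain ⟨w, hw, hle⟩ := h.cl _ (hmem t ht) (η / c ^ 2) (by positivity)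
    refine ⟨c • w, Submodule.smul_mem _ c hw, ?_⟩
    have e : ∀ x : V, ‖(c • u (c * t)) x - (c • w) x‖ ^ 2 = c ^ 2 * ‖u (c * t) x - w x‖ ^ 2 := by
      intro x
      show ‖c • u (c * t) x - c • w x‖ ^ 2 = _
      rw [← smul_sub, norm_smul, mul_pow, Real.norm_of_nonneg hc0.le]
    simp only [e]
    rw [integral_const_mul]
    calc c ^ 2 * ∫ x in cell, ‖u (c * t) x - w x‖ ^ 2 ≤ c ^ 2 * (η / c ^ 2) := by gcongr
      _ = η := by field_simp
  · obtain ⟨C, hC⟩ := h.bdd
    refine ⟨c * C, fun t ht x => ⟨?_, ?_⟩⟩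
    · show ‖c • u (c * t) x‖ ≤ c * C
      rw [norm_smul, Real.norm_of_nonneg hc0.le]
      exact mul_le_mul_of_nonneg_left (hC _ (hmem t ht) x).1 hc0.le
    · rw [hfd t ht x, norm_smul, Real.norm_of_nonneg hc0.le]
      exact mul_le_mul_of_nonneg_left (hC _ (hmem t ht) x).2 hc0.le
  · intro k t ht
    have h1 := h.eq k _ (hmem t ht)
    have h2 : HasDerivWithinAt (fun s : ℝ => c * s) c (Icc 0 (T / c)) t := by
      simpa using (hasDerivWithinAt_id t (Icc 0 (T / c))).const_mul c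
    have h3 := (HasDerivWithinAt.comp t h1 h2 (fun s hs => hmem s hs)).const_mul c
    have e1 : (fun s => ∫ x in cell, ⟪(c • u (c * s)) x, Ψ k x⟫) =
        fun s => c * ((fun s => ∫ x in cell, ⟪u s x, Ψ k x⟫) ∘ fun s => c * s) s := by
      funext s
      simp only [Function.comp]
      rw [← integral_const_mul]
      refine integral_congr_ae (Eventually.of_forall fun x => ?_)
      show ⟪c • u (c * s) x, Ψ k x⟫ = c * ⟪u (c * s) x, Ψ k x⟫
      rw [real_inner_smul_left]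
    have e2 : ∫ x in cell, ⟪(c • u (c * t)) x, fderiv ℝ (Ψ k) x ((c • u (c * t)) x)⟫
        = c * ((∫ x in cell, ⟪u (c * t) x, fderiv ℝ (Ψ k) x (u (c * t) x)⟫) * c) := by
      rw [← integral_mul_const, ← integral_const_mul]
      refine integral_congr_ae (Eventually.of_forall fun x => ?_)
      show ⟪c • u (c * t) x, fderiv ℝ (Ψ k) x (c • u (c * t) x)⟫ =
        c * (⟪u (c * t) x, fderiv ℝ (Ψ k) x (u (c * t) x)⟫ * c)
      rw [map_smul, real_inner_smul_left, real_inner_smul_right]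
      ring
    show HasDerivWithinAt (fun s => ∫ x in cell, ⟪(c • u (c * s)) x, Ψ k x⟫)
      (∫ x in cell, ⟪(c • u (c * t)) x, fderiv ℝ (Ψ k) x ((c • u (c * t)) x)⟫) (Icc 0 (T / c)) t
    rw [e1, e2]
    exact h3

theorem TorMax.scale {Ψ : ℕ → V → V} {u0 : V → V} {Ts c : ℝ} {u : ℝ → V → V} (hc : 0 < c)
    (h : TorMax Ψ u0 Ts u) :
    TorMax Ψ (c • u0) (Ts / c) (fun t => c • u (c * t)) := by
  have hci : 0 < c⁻¹ := by positivity
  have hmem : ∀ t ∈ Ico 0 (Ts / c), c * t ∈ Ico 0 Ts := by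
    intro t ht
    have h2 := ht.2
    rw [lt_div_iff₀ hc] at h2
    exact ⟨mul_nonneg hc.le ht.1, by linarith⟩
  refine ⟨?_, ?_, ?_, ?_⟩
  · intro T h0 hT
    rw [lt_div_iff₀ hc] at hT
    have h3 := tor_scale hc (h.sol (T * c) (by positivity) hT)
    rwa [mul_div_assoc, div_self hc.ne', mul_one] at h3
  · intro T v h0 hv
    have h1 := tor_scale hci hv
    rw [smul_smul, inv_mul_cancel₀ hc.ne', one_smul] at h1
    have e1 : T / c⁻¹ = c * T := by field_simp
    rw [e1] at h1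
    obtain ⟨h2, h3⟩ := h.uniq _ _ (by positivity) h1
    refine ⟨by rw [lt_div_iff₀ hc]; linarith, fun t ht => ?_⟩
    have h4 := h3 (c * t) ⟨mul_nonneg hc.le ht.1, mul_le_mul_of_nonneg_left ht.2 hc.le⟩
    have e2 : c⁻¹ * (c * t) = t := by field_simp
    rw [e2] at h4
    rw [← h4, smul_smul, mul_inv_cancel₀ hc.ne', one_smul]
  · intro t ht
    exact (h.smooth _ (hmem t ht)).const_smul c
  · intro t ht
    have e : ∀ (f : V → V), ∫ x in cell, ‖(c • f) x‖ ^ 2 = c ^ 2 * ∫ x in cell, ‖f x‖ ^ 2 := by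
      intro f
      rw [← integral_const_mul]
      refine integral_congr_ae (Eventually.of_forall fun x => ?_)
      show ‖c • f x‖ ^ 2 = c ^ 2 * ‖f x‖ ^ 2
      rw [norm_smul, mul_pow, Real.norm_of_nonneg hc.le]
    rw [e, e, h.energy _ (hmem t ht)]

theorem TorBlow.scale {p : V} {Ts c : ℝ} {u : ℝ → V → V} (hTs : 0 ≤ Ts) (hc : 0 < c)
    (hs : ∀ t ∈ Ico 0 Ts, ContDiff ℝ ∞ (u t)) (h : TorBlow p Ts u) :
    TorBlow p (Ts / c) (fun t => c • u (c * t)) := by
  refine ⟨fun g hg => ?_, fun δ hδ k => ?_⟩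
  · obtain ⟨t, ht, x, hx⟩ := h.vort (fun t => g (t / c) / c) ((int_div hTs hc hg).div_const _)
    refine ⟨t / c, ⟨div_nonneg ht.1 hc.le, div_lt_div_of_pos_right ht.2 hc⟩, x, ?_⟩
    have e1 : c * (t / c) = t := by field_simp
    rw [e1, curl_eq, fderiv_const_smul ((hs t ht).differentiable (by simp)).differentiableAt,
      cu_smul, norm_smul, Real.norm_of_nonneg hc.le]
    beta_reduce at hx
    rw [div_lt_iff₀ hc] at hx
    rw [← curl_eq]
    linarith
  · obtain ⟨C, hC⟩ := h.away δ hδ k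
    refine ⟨c * C, fun t ht x hx hxp => ?_⟩
    have hm : c * t ∈ Ico 0 Ts := by
      have h2 := ht.2
      rw [lt_div_iff₀ hc] at h2
      exact ⟨mul_nonneg hc.le ht.1, by linarith⟩
    have hk : ((k : ℕ∞) : WithTop ℕ∞) ≤ ∞ := by exact_mod_cast le_top
    have h2 : ContDiff ℝ k (u (c * t)) := (hs _ hm).of_le hk
    rw [iteratedFDeriv_const_smul_apply h2.contDiffAt, norm_smul, Real.norm_of_nonneg hc.le]
    exact mul_le_mul_of_nonneg_left (hC _ hm x hx hxp) hc.le

lemma mem_ocell {x : V} : x ∈ ocell ↔ bx x < Real.pi := by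
  unfold bx ocell
  rw [pi_norm_lt_iff Real.pi_pos]
  simp

/-- Blow-up near arbitrary data for projections of the Euler equations on the torus. -/
theorem tor_final (w : V → V) (hw : ContDiff ℝ ∞ w) (hwc : HasCompactSupport w)
    (hwΩ : tsupport w ⊆ ocell) (hwd : ∀ x, divg w x = 0) (p : V) (hpΩ : p ∈ ocell)
    (hp : p ∉ tsupport w) (ε : ℝ) (hε : 0 < ε) :
    ∃ (Ψ : ℕ → V → V) (u₀ : V → V) (Ts : ℝ) (u : ℝ → V → V),
      TorAdm Ψ ∧ u₀ ∈ Submodule.span ℝ (range Ψ) ∧
      (∀ x ∈ cell, ε ≤ ‖x - p‖ → u₀ x = w x) ∧ ∫ x in cell, ‖u₀ x - w x‖ ^ 2 < ε ∧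
      0 < Ts ∧ Ts < ε ∧ TorMax Ψ u₀ Ts u ∧ TorBlow p Ts u ∧
      ∀ T > 0, ∃ v₀ ∈ Submodule.span ℝ (range Ψ), ∃ v : ℝ → V → V,
        TorMax Ψ v₀ T v ∧ TorBlow p T v := by
  have hoo : IsOpen ocell := by
    have : ocell = bx ⁻¹' Iio Real.pi := by ext x; exact mem_ocell
    rw [this]
    exact isOpen_Iio.preimage bx_cont
  obtain ⟨r, hr, hball⟩ := Metric.isOpen_iff.1 hoo p hpΩ
  set e := min ε (r / 2) with he
  have he0 : 0 < e := lt_min hε (by positivity)
  have heε : e ≤ ε := min_le_left _ _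
  have her : e ≤ r / 2 := min_le_right _ _
  obtain ⟨Φ, u₀, Ts, u, h1, h2, h5, h6, h7, h8, h9, h10, h11, h12, h13, h14, h15⟩ :=
    finalE 0 le_rfl w hw hwc hwd p hp e he0
  set K : Set V := tsupport w ∪ Metric.closedBall p e with hKdef
  have hK : IsCompact K := hwc.isCompact.union (isCompact_closedBall p e)
  have hKΩ : K ⊆ ocell := by
    refine union_subset hwΩ fun x hx => hball ?_
    rw [Metric.mem_closedBall] at hx
    rw [Metric.mem_ball]
    linarith
  have hKne : K.Nonempty := ⟨p, Or.inr (Metric.mem_closedBall_self he0.le)⟩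
  obtain ⟨x0, hx0, hmax⟩ := hK.exists_isMaxOn hKne bx_cont.continuousOn
  set m := bx x0 with hmdef
  have hm : m < Real.pi := mem_ocell.1 (hKΩ hx0)
  have hm0 : 0 ≤ m := bx_nonneg _
  have hKm : ∀ x, m < bx x → x ∉ K := fun x hx hxK => absurd (hmax hxK) (not_le.2 hx)
  have hKc := hK.isClosed
  have hfar : ∀ x ∉ K, e ≤ ‖x - p‖ ∧ w x = 0 := by
    intro x hx
    rw [hKdef, mem_union, not_or] at hx
    refine ⟨?_, image_eq_zero_of_notMem_tsupport hx.1⟩
    have := hx.2
    rw [Metric.mem_closedBall, dist_eq_norm, not_le] at this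
    exact this.le
  have hΦK : ∀ k, ∀ x ∉ K, Φ k x = 0 := by
    intro k x hx
    obtain ⟨q1, q2⟩ := hfar x hx
    cases k with
    | zero => rw [(h5 x q1).1, q2]
    | succ n => exact (h5 x q1).2 n
  have hΦT : ∀ k, TF (Φ k) := fun k =>
    ⟨(h1 k).1.of_le (by exact_mod_cast le_top), (h1 k).2.1, (h1 k).2.2⟩
  have hΦo : ∀ k, Out m (Φ k) := fun k x hx => hΦK k x (hKm x hx)
  have hX : ∀ v, InX Φ v → Out m v := fun v hv x hx => D5.inX_off hKc hΦT hΦK hv (hKm x hx)
  have hu0o : Out m u₀ := span_out hΦo h6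
  have hwo : Out m w := fun x hx => (hfar x (hKm x hx)).2
  have hout : ∀ t, 0 ≤ t → t < Ts → Out m (u t) := fun t ht0 ht =>
    hX _ ((h11 t ht0 ht).mem t ⟨ht0, le_rfl⟩)
  have hM : TorMax (fun k => pe (Φ k)) (pe u₀) Ts (fun t => pe (u t)) := by
    refine ⟨fun T h0 hT => space_to_tor hm hΦo hX (h11 T h0 hT), ?_,
      fun t ht => pe_contDiff hm (hout t ht.1 ht.2) (h12 t ht.1 ht.2).1, ?_⟩
    · intro T z hT0 hz
      have k1 := to_space hm hΦT hΦo hu0o hT0 hz
      obtain ⟨k2, k3⟩ := h15 T _ hT0 k1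
      refine ⟨k2, fun t ht => ?_⟩
      have k4 : z t = pe (cutoff m (z t)) := eq_pe hm (hz.per t ht) (hz.cd t ht).continuous
        fun x hx h3 => sol_zero hm (fun k => (hΦT k).cont) hΦo hz ht hx h3
      rw [k4]
      exact congrArg pe (k3 t ht)
    · intro t ht
      have k1 := (h12 t ht.1 ht.2).2
      rw [mul_zero, zero_mul, add_zero] at k1
      rw [int_sq hm (hout t ht.1 ht.2), int_sq hm hu0o, k1]
  have hB : TorBlow p Ts (fun t => pe (u t)) := by
    refine ⟨fun g hg => ?_, fun δ hδ k => ?_⟩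
    · obtain ⟨t, ht0, ht, x, hx⟩ := h13 (fun t => max (g t) 0) hg.pos_part
      refine ⟨t, ⟨ht0, ht⟩, x, (le_max_left (g t) 0).trans_lt ?_⟩
      beta_reduce
      rw [pe_curl hm (hout t ht0 ht)]
      rcases le_or_gt (bx x) m with h3 | h3
      · rwa [red_ball hm h3]
      · have : curl (u t) x = 0 := by
          rw [curl_eq, fd_out (hout t ht0 ht) h3]
          ext i
          fin_cases i <;> simp [cu, en]
        rw [this, norm_zero] at hx
        exact absurd hx (not_lt.mpr (le_max_right _ _))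
    · obtain ⟨C, hC⟩ := h14 δ hδ k
      refine ⟨max C 0, fun t ht x hx hxp => ?_⟩
      beta_reduce
      rw [pe_iter hm (hout t ht.1 ht.2)]
      rcases le_or_gt (bx x) m with h3 | h3
      · rw [red_ball hm h3]
        exact (hC t ht.1 ht.2 x hxp).trans (le_max_left _ _)
      · have h4 : m < bx (red x) := by rw [bx_red_cell hx]; exact h3
        have k1 : u t =ᶠ[𝓝 (red x)] fun _ => 0 := by
          filter_upwards [bx_cont.continuousAt.eventually (lt_mem_nhds h4)] with y hy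
          exact hout t ht.1 ht.2 y hy
        rw [(k1.iteratedFDeriv ℝ k).eq_of_nhds, iteratedFDeriv_fun_zero]
        simp
  refine ⟨fun k => pe (Φ k), pe u₀, Ts, fun t => pe (u t), ⟨fun k => pe_contDiff hm (hΦo k) (h1 k).1,
    fun k => pe_per _, fun k => pe_div hm (hΦo k) (hΦT k).dv, fun j k hjk => ?_⟩, pe_span h6,
    fun x hx hxp => ?_, ?_, h9, h10.trans_le heε, hM, hB, fun T hT => ?_⟩
  · have k1 : ∫ x in cell, ⟪pe (Φ j) x, pe (Φ k) x⟫ = ip (Φ j) (Φ k) := by
      refine int_cell hm (fun x hx => by simp [hΦo j x hx]) fun x hx => ?_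
      rw [pe_cell hm (hΦo j) hx, pe_cell hm (hΦo k) hx]
    rw [k1]
    exact h2 j k hjk
  · rw [pe_cell hm hu0o hx]
    exact h7 x (heε.trans hxp)
  · have k1 : ∫ x in cell, ‖pe u₀ x - w x‖ ^ 2 = ip (u₀ - w) (u₀ - w) := by
      refine int_cell hm (fun x hx => by simp [hu0o x hx, hwo x hx]) fun x hx => ?_
      rw [pe_cell hm hu0o hx, real_inner_self_eq_norm_sq]
      rfl
    rw [k1]
    exact h8.trans_le heε
  · have hc : 0 < Ts / T := by positivity
    have k1 := hM.scale hc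
    have k2 := hB.scale h9.le hc hM.smooth
    have e1 : Ts / (Ts / T) = T := by field_simp
    rw [e1] at k1 k2
    exact ⟨_, Submodule.smul_mem _ _ (pe_span h6), _, k1, k2⟩

end Pool.Agent.H280R3.E5
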