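import Mathlib
import Pool.Agent.H280R3.E5.TorM

/-! Short form of the statement on the torus. -/

set_option autoImplicit false

open Set MeasureTheory Filter Topology Finset
open scoped RealInnerProductSpace ContDiff

namespace Pool.Agent.H280R3.E5

open Pool.Agent.H402V4

/-- a smooth divergence-free field with compact support in the open cell -/
structure Bg (w : V → V) : Prop where
  smooth : ContDiff ℝ ∞ w
  comp : HasCompactSupport w
  supp : tsupport w ⊆ ocell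
  dv : ∀ x, divg w x = 0

/-- `u₀` is a finite combination of the `Ψ k`, equals `w` on the cell outside the ball of radius
`ε` about `p`, and is close to `w` in `L²` -/
structure Near (Ψ : ℕ → V → V) (w u₀ : V → V) (p : V) (ε : ℝ) : Prop where
  span : u₀ ∈ Submodule.span ℝ (range Ψ)
  eq : ∀ x ∈ cell, ε ≤ ‖x - p‖ → u₀ x = w x
  close : ∫ x in cell, ‖u₀ x - w x‖ ^ 2 < ε

/-- `u` is the maximal solution from `u₀`, on `[0, Ts)`, and blows up at `p` -/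
structure Sing (Ψ : ℕ → V → V) (u₀ : V → V) (p : V) (Ts : ℝ) (u : ℝ → V → V) : Prop where
  max : TorMax Ψ u₀ Ts u
  blow : TorBlow p Ts u

theorem tor_short (w : V → V) (hw : Bg w) (p : V) (hpΩ : p ∈ ocell) (hp : p ∉ tsupport w)
    (ε : ℝ) (hε : 0 < ε) :
    ∃ (Ψ : ℕ → V → V) (u₀ : V → V) (Ts : ℝ) (u : ℝ → V → V),
      TorAdm Ψ ∧ Near Ψ w u₀ p ε ∧ 0 < Ts ∧ Ts < ε ∧ Sing Ψ u₀ p Ts u ∧
      ∀ T > 0, ∃ v₀ ∈ Submodule.span ℝ (range Ψ), ∃ v : ℝ → V → V, Sing Ψ v₀ p T v := by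
  obtain ⟨Ψ, u₀, Ts, u, h1, h2, h3, h4, h5, h6, h7, h8, h9⟩ :=
    tor_final w hw.smooth hw.comp hw.supp hw.dv p hpΩ hp ε hε
  refine ⟨Ψ, u₀, Ts, u, h1, ⟨h2, h3, h4⟩, h5, h6, ⟨h7, h8⟩, fun T hT => ?_⟩
  obtain ⟨v₀, k1, v, k2, k3⟩ := h9 T hT
  exact ⟨v₀, k1, v, ⟨k2, k3⟩⟩

end Pool.Agent.H280R3.E5
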